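import Mathlib

/-!
Definitions for MP_63facb_an: squeezing function, local defining functions, Levi form,
D'Angelo type, admissible pairs.
-/

namespace Pool.Agent.Helper417.Sq

open Set Filter Topology Metric Asymptotics
open scoped ENNReal ContDiff

/-- `ℂⁿ` with the Euclidean norm. -/
abbrev Cn (n : ℕ) := EuclideanSpace ℂ (Fin n)

/-- `F` is a holomorphic embedding of the open set `D ⊆ ℂⁿ` into `ℂⁿ`: an injective holomorphic
immersion on `D` which is a homeomorphism onto its image. -/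
structure IsHolEmbedding {n : ℕ} (D : Set (Cn n)) (F : Cn n → Cn n) : Prop where
  holo : DifferentiableOn ℂ F D
  inj : InjOn F D
  imm : ∀ z ∈ D, Function.Injective (fderiv ℂ F z)
  emb : Topology.IsEmbedding (D.domRestrict F)

/-- The radii `r > 0` such that `B(0,r) ⊆ F(D)` for some holomorphic embedding
`F : D → B(0,1)` with `F z = 0`. -/
def squeezingRadii {n : ℕ} (D : Set (Cn n)) (z : Cn n) : Set ℝ :=
  {r : ℝ | 0 < r ∧ ∃ F : Cn n → Cn n, IsHolEmbedding D F ∧ MapsTo F D (ball 0 1) ∧ F z = 0 ∧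
    ball 0 r ⊆ F '' D}

/-- The squeezing function `s_D(z)`. -/
noncomputable def squeezing {n : ℕ} (D : Set (Cn n)) (z : Cn n) : ℝ :=
  sSup (squeezingRadii D z)

/-- `r` is a `C^∞` local defining function of `D` on the open set `U`:
`D ∩ U = {r < 0} ∩ U`, `∂D ∩ U = {r = 0} ∩ U` and `dr ≠ 0` on `U`. -/
structure IsDefiningOn {n : ℕ} (D U : Set (Cn n)) (r : Cn n → ℝ) : Prop where
  isOpen : IsOpen U
  smooth : ContDiffOn ℝ ∞ r U
  grad_ne : ∀ q ∈ U, fderiv ℝ r q ≠ 0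
  mem_iff : ∀ q ∈ U, (q ∈ D ↔ r q < 0)
  mem_frontier_iff : ∀ q ∈ U, (q ∈ frontier D ↔ r q = 0)

/-- The Levi form `∑ ∂²r/∂z_j∂z̄_k t_j t̄_k` at `q`, expressed through the real Hessian `H` of `r`
at `q` as `(H(t,t) + H(it,it))/4`. -/
noncomputable def levi {n : ℕ} (r : Cn n → ℝ) (q t : Cn n) : ℝ :=
  (fderiv ℝ (fderiv ℝ r) q t t +
    fderiv ℝ (fderiv ℝ r) q (Complex.I • t) (Complex.I • t)) / 4

/-- `t` is a complex tangent vector at `q`: `∑ ∂r/∂z_j(q) t_j = 0`, i.e. `dr(q)` vanishes on `t`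
and on `i t`. -/
def IsComplexTangent {n : ℕ} (r : Cn n → ℝ) (q t : Cn n) : Prop :=
  fderiv ℝ r q t = 0 ∧ fderiv ℝ r q (Complex.I • t) = 0

/-- Order of vanishing at `0` of a function of one complex variable: the supremum of all `k` with
`f(ζ) = O(|ζ|^k)`. -/
noncomputable def vanOrder {E : Type*} [NormedAddCommGroup E] (f : ℂ → E) : ℝ≥0∞ :=
  ⨆ (k : ℕ) (_ : f =O[𝓝 0] fun ζ => ‖ζ‖ ^ k), (k : ℝ≥0∞)

/-- Nonconstant germs of holomorphic curves `γ : (ℂ,0) → (ℂⁿ,q)`. -/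
def curveGerms {n : ℕ} (q : Cn n) : Set (ℂ → Cn n) :=
  {γ | AnalyticAt ℂ γ 0 ∧ γ 0 = q ∧ ¬ (∀ᶠ ζ in 𝓝 0, γ ζ = q)}

/-- The D'Angelo (1-)type at `q` of the hypersurface with defining function `r`:
`sup_γ ν(r ∘ γ) / ν(γ - q)`. -/
noncomputable def dAngeloType {n : ℕ} (r : Cn n → ℝ) (q : Cn n) : ℝ≥0∞ :=
  ⨆ γ ∈ curveGerms q, vanOrder (fun ζ => r (γ ζ)) / vanOrder (fun ζ => γ ζ - q)

/-- `D` is a bounded domain of `ℂⁿ`. -/
def IsBoundedDomain {n : ℕ} (D : Set (Cn n)) : Prop :=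
  IsOpen D ∧ IsConnected D ∧ Bornology.IsBounded D

/-- Admissible of kind (A). -/
def AdmissibleA {n : ℕ} (D : Set (Cn n)) (p : Cn n) : Prop :=
  n = 2 ∧ IsBoundedDomain D ∧ p ∈ frontier D ∧ ∃ U r, p ∈ U ∧ IsDefiningOn D U r ∧
    (∀ q ∈ U, q ∈ frontier D → ∀ t, IsComplexTangent r q t → 0 ≤ levi r q t) ∧
    dAngeloType r p < ⊤

/-- Admissible of kind (B). -/
def AdmissibleB {n : ℕ} (D : Set (Cn n)) (p : Cn n) : Prop :=
  2 ≤ n ∧ IsBoundedDomain D ∧ p ∈ frontier D ∧ ∃ U r, p ∈ U ∧ IsDefiningOn D U r ∧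
    (∀ q ∈ U, q ∈ frontier D →
      (∀ t, IsComplexTangent r q t → 0 ≤ levi r q t) ∧ dAngeloType r q < ⊤) ∧
    ∃ V : Submodule ℂ (Cn n), Module.finrank ℂ V = n - 2 ∧ (∀ t ∈ V, IsComplexTangent r p t) ∧
      ∀ t ∈ V, t ≠ 0 → 0 < levi r p t

/-- Admissible of kind (C). -/
def AdmissibleC {n : ℕ} (D : Set (Cn n)) (p : Cn n) : Prop :=
  2 ≤ n ∧ IsBoundedDomain D ∧ p ∈ frontier D ∧ Convex ℝ D ∧ ∃ U r, p ∈ U ∧ IsDefiningOn D U r ∧
    ∀ q ∈ U, q ∈ frontier D → dAngeloType r q < ⊤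

/-- `∂D` is strongly (Levi) pseudoconvex at `p`. -/
def StronglyPseudoconvexAt {n : ℕ} (D : Set (Cn n)) (p : Cn n) : Prop :=
  ∃ U r, p ∈ U ∧ IsDefiningOn D U r ∧ ∀ t, IsComplexTangent r p t → t ≠ 0 → 0 < levi r p t

end Pool.Agent.Helper417.Sq
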