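import Pool.Agent.Helper417.Sq.Defs

namespace Pool.Agent.Helper417.Sq

open Set Filter Topology Metric Asymptotics
open scoped ENNReal ContDiff

theorem isHolEmbedding_of_inverse {n : ℕ} {D D' : Set (Cn n)} (hD : IsOpen D) (hD' : IsOpen D')
    {F G : Cn n → Cn n} (hF : DifferentiableOn ℂ F D) (hG : DifferentiableOn ℂ G D')
    (hFm : MapsTo F D D') (hGF : ∀ z ∈ D, G (F z) = z) : IsHolEmbedding D F where
  holo := hF
  inj := fun x hx y hy h => by rw [← hGF x hx, ← hGF y hy, h]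
  imm := by
    intro z hz
    have h1 : HasFDerivAt F (fderiv ℂ F z) z :=
      ((hF z hz).differentiableAt (hD.mem_nhds hz)).hasFDerivAt
    have h2 : HasFDerivAt G (fderiv ℂ G (F z)) (F z) :=
      ((hG _ (hFm hz)).differentiableAt (hD'.mem_nhds (hFm hz))).hasFDerivAt
    have h3 := h2.comp z h1
    have h4 : HasFDerivAt (G ∘ F) (ContinuousLinearMap.id ℂ (Cn n)) z := by
      apply (hasFDerivAt_id z).congr_of_eventuallyEq
      filter_upwards [hD.mem_nhds hz] with w hw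
      exact hGF w hw
    have h5 := h3.unique h4
    intro a b hab
    have h6 := congrArg (fun L : Cn n →L[ℂ] Cn n => L a) h5
    have h7 := congrArg (fun L : Cn n →L[ℂ] Cn n => L b) h5
    simp only [ContinuousLinearMap.comp_apply, ContinuousLinearMap.id_apply] at h6 h7
    rw [← h6, ← h7, hab]
  emb := by
    have hc : Continuous (D.domRestrict F) := continuousOn_iff_continuous_domRestrict.1 hF.continuousOn
    let f' : D → D' := fun x => ⟨F x, hFm x.2⟩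
    have hf' : Continuous f' := by
      apply Continuous.subtype_mk
      exact hc
    have hg' : Continuous (D'.domRestrict G) :=
      continuousOn_iff_continuous_domRestrict.1 hG.continuousOn
    have hcomp : (D'.domRestrict G) ∘ f' = (Subtype.val : D → Cn n) := by
      funext x
      exact hGF x x.2
    have h1 : Topology.IsEmbedding f' := by
      apply Topology.IsEmbedding.of_comp hf' hg'
      rw [hcomp]
      exact Topology.IsEmbedding.subtypeVal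
    exact Topology.IsEmbedding.subtypeVal.comp h1

theorem IsHolEmbedding.comp {n : ℕ} {D D' : Set (Cn n)} (hD : IsOpen D) (hD' : IsOpen D')
    {F G : Cn n → Cn n} (hF : IsHolEmbedding D F) (hG : IsHolEmbedding D' G)
    (hFm : MapsTo F D D') : IsHolEmbedding D (G ∘ F) where
  holo := hG.holo.comp hF.holo hFm
  inj := hG.inj.comp hF.inj hFm
  imm := by
    intro z hz
    have h1 : HasFDerivAt F (fderiv ℂ F z) z :=
      ((hF.holo z hz).differentiableAt (hD.mem_nhds hz)).hasFDerivAt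
    have h2 : HasFDerivAt G (fderiv ℂ G (F z)) (F z) :=
      ((hG.holo _ (hFm hz)).differentiableAt (hD'.mem_nhds (hFm hz))).hasFDerivAt
    have h3 := h2.comp z h1
    rw [h3.fderiv]
    exact (hG.imm _ (hFm hz)).comp (hF.imm z hz)
  emb := by
    let f' : D → D' := fun x => ⟨F x, hFm x.2⟩
    have h1 : Topology.IsEmbedding f' := by
      rw [← Topology.IsEmbedding.subtypeVal.of_comp_iff]
      exact hF.emb
    exact hG.emb.comp h1

/-- The egg domain `|z|² + |w|⁴ < 1`. -/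
def egg : Set (Cn 2) := {v | ‖v 0‖ ^ 2 + ‖v 1‖ ^ 4 < 1}

theorem isOpen_egg : IsOpen egg := by
  apply isOpen_lt <;> fun_prop

theorem mem_ball_iff (v : Cn 2) (r : ℝ) (hr : 0 < r) :
    v ∈ ball (0 : Cn 2) r ↔ ‖v 0‖ ^ 2 + ‖v 1‖ ^ 2 < r ^ 2 := by
  rw [mem_ball_zero_iff, ← abs_of_pos hr, ← abs_of_nonneg (norm_nonneg v), ← sq_lt_sq,
    EuclideanSpace.norm_sq_eq, Fin.sum_univ_two]
  simp

/-- automorphisms of the egg -/
noncomputable def autE (x : ℝ) (v : Cn 2) : Cn 2 :=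
  !₂[(v 0 - x) / (1 - x * v 0),
    v 1 * ((Real.sqrt (Real.sqrt (1 - x ^ 2)) : ℝ) : ℂ) / (1 - x * v 0) ^ (2⁻¹ : ℂ)]

theorem autE_zero (x : ℝ) (v : Cn 2) : autE x v 0 = (v 0 - x) / (1 - x * v 0) := by
  simp [autE]

theorem autE_one (x : ℝ) (v : Cn 2) : autE x v 1 =
    v 1 * ((Real.sqrt (Real.sqrt (1 - x ^ 2)) : ℝ) : ℂ) / (1 - x * v 0) ^ (2⁻¹ : ℂ) := by
  simp [autE]

theorem re_pos_of {x : ℝ} (hx : |x| < 1) {z : ℂ} (hz : ‖z‖ < 1) : 0 < (1 - x * z).re := by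
  have h1 : ‖(x : ℂ) * z‖ < 1 := by
    rw [norm_mul, Complex.norm_real, Real.norm_eq_abs]
    nlinarith [abs_nonneg x, norm_nonneg z]
  have h2 : ((x : ℂ) * z).re ≤ ‖(x : ℂ) * z‖ := Complex.re_le_norm _
  simp only [Complex.sub_re, Complex.one_re]
  linarith

theorem sqrt_facts {u : ℂ} (hu : 0 < u.re) : (u ^ (2⁻¹ : ℂ)) * (u ^ (2⁻¹ : ℂ)) = u ∧
    0 < (u ^ (2⁻¹ : ℂ)).re := by
  constructor
  · have hne : u ≠ 0 := by
      rintro rfl
      simp at hu
    rw [← Complex.cpow_add _ _ hne]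
    norm_num
  · rw [Complex.cpow_inv_two_re]
    apply Real.sqrt_pos.2
    have := norm_nonneg u
    linarith

theorem sqrt_unique {a b : ℂ} (h : a * a = b * b) (ha : 0 < a.re) (hb : 0 < b.re) : a = b := by
  rcases mul_self_eq_mul_self_iff.1 h with h | h
  · exact h
  · exfalso
    rw [h] at ha
    simp at ha
    linarith

theorem norm_lt_of_mem_egg {v : Cn 2} (hv : v ∈ egg) : ‖v 0‖ < 1 := by
  have h1 : ‖v 0‖ ^ 2 + ‖v 1‖ ^ 4 < 1 := hv
  have h2 : 0 ≤ ‖v 1‖ ^ 4 := by positivity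
  nlinarith [norm_nonneg (v 0)]

/-- key identity -/
theorem autE_identity {x : ℝ} (hx : |x| < 1) {v : Cn 2} (hv : ‖v 0‖ < 1) :
    (1 - (‖autE x v 0‖ ^ 2 + ‖autE x v 1‖ ^ 4)) * ‖1 - x * v 0‖ ^ 2 =
      (1 - x ^ 2) * (1 - (‖v 0‖ ^ 2 + ‖v 1‖ ^ 4)) := by
  have hre := re_pos_of hx hv
  obtain ⟨h1, h2⟩ := sqrt_facts hre
  have hne : (1 - x * v 0 : ℂ) ≠ 0 := by
    intro h
    rw [h] at hre
    simp at hre
  have hx2 : 0 ≤ 1 - x ^ 2 := by
    have := (sq_lt_one_iff_abs_lt_one x).2 hx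
    linarith
  have hn : 0 < ‖1 - x * v 0‖ := norm_pos_iff.2 hne
  have h3 : ‖(1 - x * v 0 : ℂ) ^ (2⁻¹ : ℂ)‖ ^ 2 = ‖1 - x * v 0‖ := by
    rw [sq, ← norm_mul, h1]
  have h4 : ‖autE x v 1‖ ^ 4 * ‖1 - x * v 0‖ ^ 2 = ‖v 1‖ ^ 4 * (1 - x ^ 2) := by
    rw [autE_one, norm_div, norm_mul, div_pow, mul_pow]
    have h5 : ‖(1 - x * v 0 : ℂ) ^ (2⁻¹ : ℂ)‖ ^ 4 = ‖1 - x * v 0‖ ^ 2 := by
      rw [← h3]; ring
    rw [h5, div_mul_cancel₀ _ (by positivity)]
    congr 1
    rw [Complex.norm_real, Real.norm_of_nonneg (Real.sqrt_nonneg _)]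
    rw [show (4 : ℕ) = 2 * 2 from rfl, pow_mul, Real.sq_sqrt (Real.sqrt_nonneg _),
      Real.sq_sqrt hx2]
  have h5 : ‖autE x v 0‖ ^ 2 * ‖1 - x * v 0‖ ^ 2 = ‖v 0 - x‖ ^ 2 := by
    rw [autE_zero, norm_div, div_pow, div_mul_cancel₀ _ (by positivity)]
  have h6 : ‖1 - x * v 0‖ ^ 2 - ‖v 0 - x‖ ^ 2 = (1 - x ^ 2) * (1 - ‖v 0‖ ^ 2) := by
    simp only [← Complex.normSq_eq_norm_sq, Complex.normSq_apply]
    simp
    ring
  calc (1 - (‖autE x v 0‖ ^ 2 + ‖autE x v 1‖ ^ 4)) * ‖1 - x * v 0‖ ^ 2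
      = ‖1 - x * v 0‖ ^ 2 - ‖autE x v 0‖ ^ 2 * ‖1 - x * v 0‖ ^ 2 -
        ‖autE x v 1‖ ^ 4 * ‖1 - x * v 0‖ ^ 2 := by ring
    _ = (1 - x ^ 2) * (1 - (‖v 0‖ ^ 2 + ‖v 1‖ ^ 4)) := by
        rw [h4, h5, h6]; ring

theorem autE_mem {x : ℝ} (hx : |x| < 1) {v : Cn 2} (hv : v ∈ egg) : autE x v ∈ egg := by
  have h0 := norm_lt_of_mem_egg hv
  have h1 := autE_identity hx h0
  have hre := re_pos_of hx h0
  have hne : (1 - x * v 0 : ℂ) ≠ 0 := by
    intro h
    rw [h] at hre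
    simp at hre
  have hn : 0 < ‖1 - x * v 0‖ ^ 2 := by
    have := norm_pos_iff.2 hne
    positivity
  have hx2 : 0 < 1 - x ^ 2 := by
    have := (sq_lt_one_iff_abs_lt_one x).2 hx
    linarith
  have h2 : ‖v 0‖ ^ 2 + ‖v 1‖ ^ 4 < 1 := hv
  have h3 : 0 < (1 - x ^ 2) * (1 - (‖v 0‖ ^ 2 + ‖v 1‖ ^ 4)) := by
    apply mul_pos hx2
    linarith
  rw [← h1] at h3
  have h4 := pos_of_mul_pos_left h3 hn.le
  show ‖autE x v 0‖ ^ 2 + ‖autE x v 1‖ ^ 4 < 1
  linarith

theorem aux_id (x z : ℂ) (h : 1 - x * z ≠ 0) :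
    (z - x) / (1 - x * z) - (-x) = z * ((1 - x ^ 2) / (1 - x * z)) := by
  have h1 : z * ((1 - x ^ 2) / (1 - x * z)) = (z * (1 - x ^ 2)) / (1 - x * z) := by ring
  rw [h1, eq_div_iff h, sub_mul, div_mul_cancel₀ _ h]
  ring

theorem autE_inverse {x : ℝ} (hx : |x| < 1) {v : Cn 2} (hv : v ∈ egg) :
    autE (-x) (autE x v) = v := by
  have h0 := norm_lt_of_mem_egg hv
  have hre := re_pos_of hx h0
  have hm := autE_mem hx hv
  have h0' := norm_lt_of_mem_egg hm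
  have hx' : |(-x)| < 1 := by rwa [abs_neg]
  have hre' := re_pos_of hx' h0'
  obtain ⟨h1, h2⟩ := sqrt_facts hre
  obtain ⟨h1', h2'⟩ := sqrt_facts hre'
  have hne : (1 - x * v 0 : ℂ) ≠ 0 := by
    intro h
    rw [h] at hre
    simp at hre
  have hx2 : 0 < 1 - x ^ 2 := by
    have := (sq_lt_one_iff_abs_lt_one x).2 hx
    linarith
  have hx2c : (1 - (x : ℂ) ^ 2) ≠ 0 := by
    have : ((1 - x ^ 2 : ℝ) : ℂ) ≠ 0 := by exact_mod_cast hx2.ne'
    simpa using this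
  have h3 : (1 - ((-x : ℝ) : ℂ) * (autE x v 0)) = (1 - x ^ 2) / (1 - x * v 0) := by
    rw [autE_zero]
    push_cast
    field_simp
    ring
  set s := (1 - x * v 0 : ℂ) ^ (2⁻¹ : ℂ) with hs
  set s' := (1 - ((-x : ℝ) : ℂ) * (autE x v 0)) ^ (2⁻¹ : ℂ) with hs'
  have hs0 : s ≠ 0 := by
    intro h; rw [h] at h2; simp at h2
  have hs0' : s' ≠ 0 := by
    intro h; rw [h] at h2'; simp at h2'
  set q : ℝ := Real.sqrt (1 - x ^ 2) with hq
  have hqpos : 0 < q := Real.sqrt_pos.2 hx2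
  have hqq : (q : ℂ) * q = 1 - x ^ 2 := by
    have : q * q = 1 - x ^ 2 := Real.mul_self_sqrt hx2.le
    exact_mod_cast this
  have h4 : s' = q / s := by
    apply sqrt_unique _ h2'
    · rw [Complex.div_re, Complex.ofReal_re, Complex.ofReal_im]
      have : 0 < Complex.normSq s := Complex.normSq_pos.2 hs0
      have h5 : 0 < q * s.re / Complex.normSq s := by positivity
      simpa using h5
    · rw [h1', h3, div_mul_div_comm, h1, hqq]
  have hss : (Real.sqrt q : ℂ) * (Real.sqrt q : ℂ) = q := by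
    exact_mod_cast Real.mul_self_sqrt hqpos.le
  have hqc : (q : ℂ) ≠ 0 := by exact_mod_cast hqpos.ne'
  have e0 : autE (-x) (autE x v) 0 = v 0 := by
    rw [autE_zero, h3, autE_zero]
    have h7 : ((v 0 - x) / (1 - x * v 0) - ((-x : ℝ) : ℂ)) =
        v 0 * ((1 - x ^ 2) / (1 - x * v 0)) := by
      push_cast
      exact aux_id _ _ hne
    rw [h7, mul_div_cancel_right₀]
    exact div_ne_zero hx2c hne
  have e1 : autE (-x) (autE x v) 1 = v 1 := by
    rw [autE_one, ← hs', h4, autE_one, ← hs]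
    have : Real.sqrt (1 - (-x) ^ 2) = q := by rw [hq]; ring_nf
    rw [this]
    have h6 : v 1 * (Real.sqrt q : ℂ) / s * (Real.sqrt q : ℂ) / (q / s) =
        v 1 * ((Real.sqrt q : ℂ) * (Real.sqrt q : ℂ)) / q := by
      field_simp
    rw [h6, hss]
    field_simp
  ext i
  fin_cases i
  · exact e0
  · exact e1

theorem autE_differentiableOn {x : ℝ} (hx : |x| < 1) : DifferentiableOn ℂ (autE x) egg := by
  intro v hv
  apply DifferentiableAt.differentiableWithinAt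
  have h0 := norm_lt_of_mem_egg hv
  have hre := re_pos_of hx h0
  have hne : (1 - x * v 0 : ℂ) ≠ 0 := by
    intro h
    rw [h] at hre
    simp at hre
  have hc : (1 - x * v 0 : ℂ) ∈ Complex.slitPlane := Or.inl hre
  have hc0 : (1 - x * v 0 : ℂ) ^ (2⁻¹ : ℂ) ≠ 0 := by
    intro h
    have := (sqrt_facts hre).2
    rw [h] at this
    simp at this
  have hd0 : DifferentiableAt ℂ (fun v : Cn 2 => v 0) v := by fun_prop
  have hd1 : DifferentiableAt ℂ (fun v : Cn 2 => v 1) v := by fun_prop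
  have hl : DifferentiableAt ℂ (fun v : Cn 2 => (1 - x * v 0 : ℂ)) v := by fun_prop
  rw [differentiableAt_euclidean]
  intro i
  fin_cases i
  · show DifferentiableAt ℂ (fun v => autE x v 0) v
    simp only [autE_zero]
    simp only [div_eq_mul_inv]
    exact (hd0.sub_const _).fun_mul (hl.fun_inv hne)
  · show DifferentiableAt ℂ (fun v => autE x v 1) v
    simp only [autE_one]
    have hl2 : DifferentiableAt ℂ (fun v : Cn 2 => (1 - x * v 0 : ℂ) ^ (2⁻¹ : ℂ)) v :=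
      hl.cpow_const hc
    simp only [div_eq_mul_inv]
    exact (hd1.mul_const _).fun_mul (hl2.fun_inv hc0)

theorem autE_isHolEmbedding {x : ℝ} (hx : |x| < 1) : IsHolEmbedding egg (autE x) :=
  isHolEmbedding_of_inverse isOpen_egg isOpen_egg (autE_differentiableOn hx)
    (autE_differentiableOn (x := -x) (by rwa [abs_neg])) (fun _ hv => autE_mem hx hv)
    (fun _ hv => autE_inverse hx hv)

end Pool.Agent.Helper417.Sq
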