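import Mathlib

namespace Pool.Agent.Helper417.Sq

open Complex Filter Topology Metric Asymptotics

/-- if `c ρ^m ≤ C ρ^k` for all small `ρ > 0` and `c > 0`, then `k ≤ m` -/
theorem pow_compare {c C : ℝ} {m k : ℕ} (hc : 0 < c)
    (h : ∀ᶠ ρ in 𝓝[>] (0 : ℝ), c * ρ ^ m ≤ C * ρ ^ k) : k ≤ m := by
  by_contra hk
  push Not at hk
  obtain ⟨j, rfl⟩ : ∃ j, k = m + (j + 1) := ⟨k - m - 1, by omega⟩
  have h2 : ∀ᶠ ρ in 𝓝[>] (0 : ℝ), c ≤ C * ρ ^ (j + 1) := by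
    filter_upwards [h, self_mem_nhdsWithin] with ρ h1 h3
    have h3 : 0 < ρ := h3
    have h4 : 0 < ρ ^ m := pow_pos h3 m
    have h5 : c * ρ ^ m ≤ (C * ρ ^ (j + 1)) * ρ ^ m := by
      calc c * ρ ^ m ≤ C * ρ ^ (m + (j + 1)) := h1
        _ = (C * ρ ^ (j + 1)) * ρ ^ m := by ring
    exact le_of_mul_le_mul_right h5 h4
  have h6 : Tendsto (fun ρ : ℝ => C * ρ ^ (j + 1)) (𝓝[>] 0) (𝓝 (C * 0 ^ (j + 1))) := by
    apply Tendsto.mono_left _ nhdsWithin_le_nhds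
    exact (Continuous.tendsto (by fun_prop) 0)
  have h7 : c ≤ C * 0 ^ (j + 1) := ge_of_tendsto h6 h2
  simp at h7
  linarith

/-- Mean value estimate: if `‖c + a‖² + ‖d + b‖² - ‖c‖² - ‖d‖² = O(|ζ|^k)` with `a, b` analytic
and vanishing at `0`, then `k ≤ 2 ord a`. -/
theorem order_bound {a b : ℂ → ℂ} (ha : AnalyticAt ℂ a 0) (hb : AnalyticAt ℂ b 0)
    (ha0 : a 0 = 0) (hb0 : b 0 = 0) (c d : ℂ) (k : ℕ)
    (hO : (fun ζ => ‖c + a ζ‖ ^ 2 + ‖d + b ζ‖ ^ 2 - ‖c‖ ^ 2 - ‖d‖ ^ 2) =O[𝓝 0]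
      fun ζ : ℂ => ‖ζ‖ ^ k) :
    (k : ℕ∞) ≤ 2 * analyticOrderAt a 0 := by
  by_cases htop : analyticOrderAt a 0 = ⊤
  · rw [htop]
    simp
  obtain ⟨m, hm⟩ : ∃ m : ℕ, analyticOrderAt a 0 = m := by
    exact ⟨_, (ENat.natCast_toNat htop).symm⟩
  rw [hm]
  obtain ⟨g, hg, hg0, hag⟩ := (ha.analyticOrderAt_eq_natCast).1 hm
  -- lower bound for `‖a‖`
  set c₀ : ℝ := ‖g 0‖ ^ 2 / 4 with hc₀
  have hc₀pos : 0 < c₀ := by
    have : 0 < ‖g 0‖ := norm_pos_iff.2 hg0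
    positivity
  have hgl : ∀ᶠ ζ in 𝓝 (0 : ℂ), ‖g 0‖ / 2 < ‖g ζ‖ := by
    have h1 : Tendsto (fun ζ => ‖g ζ‖) (𝓝 0) (𝓝 ‖g 0‖) := hg.continuousAt.norm
    have h2 : ‖g 0‖ / 2 < ‖g 0‖ := by
      have : 0 < ‖g 0‖ := norm_pos_iff.2 hg0
      linarith
    exact h1.eventually (lt_mem_nhds h2)
  obtain ⟨C, hC⟩ := hO.bound
  have hana : ∀ᶠ ζ in 𝓝 (0 : ℂ), AnalyticAt ℂ a ζ := ha.eventually_analyticAt
  have hanb : ∀ᶠ ζ in 𝓝 (0 : ℂ), AnalyticAt ℂ b ζ := hb.eventually_analyticAt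
  have hall := hgl.and (hC.and (hana.and (hanb.and hag)))
  obtain ⟨δ, hδ, hball⟩ := Metric.eventually_nhds_iff.1 hall
  set G : ℂ → ℂ := fun ζ => 2 * (starRingEnd ℂ c * a ζ + starRingEnd ℂ d * b ζ) with hG
  have key : ∀ ρ : ℝ, 0 < ρ → ρ < δ → c₀ * ρ ^ (2 * m) ≤ C * ρ ^ k := by
    intro ρ hρ hρδ
    have hin : ∀ ζ ∈ closedBall (0 : ℂ) |ρ|, dist ζ 0 < δ := by
      intro ζ hζ
      rw [mem_closedBall, abs_of_pos hρ] at hζ
      linarith
    have hGd : DifferentiableOn ℂ G (closedBall 0 |ρ|) := by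
      intro ζ hζ
      have h1 := hball (hin ζ hζ)
      have h2 : DifferentiableAt ℂ a ζ := h1.2.2.1.differentiableAt
      have h3 : DifferentiableAt ℂ b ζ := h1.2.2.2.1.differentiableAt
      apply DifferentiableAt.differentiableWithinAt
      rw [hG]
      fun_prop
    have hGdc : DiffContOnCl ℂ G (ball 0 |ρ|) := by
      apply DifferentiableOn.diffContOnCl
      exact hGd.mono (closure_ball_subset_closedBall)
    have hGc : ContinuousOn G (sphere 0 |ρ|) :=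
      hGd.continuousOn.mono sphere_subset_closedBall
    have habs : |ρ| = ρ := abs_of_pos hρ
    have hint : CircleIntegrable G 0 ρ := by
      apply ContinuousOn.circleIntegrable hρ.le
      rwa [habs] at hGc
    have h1 : Real.circleAverage G 0 ρ = 0 := by
      rw [hGdc.circleAverage, hG]
      simp [ha0, hb0]
    have h2 : Real.circleAverage (fun ζ => (G ζ).re) 0 ρ = 0 := by
      have := (Complex.reCLM).circleAverage_comp_comm hint
      have h3 : Real.circleAverage (Complex.reCLM ∘ G) 0 ρ = 0 := by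
        rw [this, h1]
        simp
      exact h3
    have hint2 : CircleIntegrable (fun ζ => (G ζ).re) 0 ρ := by
      apply ContinuousOn.circleIntegrable hρ.le
      rw [habs] at hGc
      exact Complex.continuous_re.comp_continuousOn hGc
    have h4 : Real.circleAverage (fun ζ => (G ζ).re) 0 ρ ≤ C * ρ ^ k - c₀ * ρ ^ (2 * m) := by
      apply Real.circleAverage_mono_on_of_le_circle hint2
      intro ζ hζ
      have hζ' : ‖ζ‖ = ρ := by
        rw [mem_sphere_zero_iff_norm, abs_of_pos hρ] at hζ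
        exact hζ
      have h5 := hball (hin ζ (sphere_subset_closedBall hζ))
      obtain ⟨h6, h7, -, -, h8⟩ := h5
      have h9 : ‖a ζ‖ = ρ ^ m * ‖g ζ‖ := by
        rw [h8]
        simp [hζ']
      have h10 : c₀ * ρ ^ (2 * m) ≤ ‖a ζ‖ ^ 2 := by
        rw [h9, hc₀]
        have h11 : (‖g 0‖ / 2) ^ 2 ≤ ‖g ζ‖ ^ 2 := by
          apply pow_le_pow_left₀ (by positivity) h6.le
        calc ‖g 0‖ ^ 2 / 4 * ρ ^ (2 * m) = (‖g 0‖ / 2) ^ 2 * (ρ ^ m) ^ 2 := by ring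
          _ ≤ ‖g ζ‖ ^ 2 * (ρ ^ m) ^ 2 := by
            apply mul_le_mul_of_nonneg_right h11 (by positivity)
          _ = (ρ ^ m * ‖g ζ‖) ^ 2 := by ring
      have h12 : ‖c + a ζ‖ ^ 2 + ‖d + b ζ‖ ^ 2 - ‖c‖ ^ 2 - ‖d‖ ^ 2 =
          ‖a ζ‖ ^ 2 + ‖b ζ‖ ^ 2 + (G ζ).re := by
        simp only [← Complex.normSq_eq_norm_sq, Complex.normSq_add, hG]
        simp [Complex.mul_re]
        ring
      have h13 : ‖a ζ‖ ^ 2 + ‖b ζ‖ ^ 2 + (G ζ).re ≤ C * ρ ^ k := by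
        rw [← h12]
        have := le_trans (le_abs_self _) (h7 : ‖_‖ ≤ _)
        rw [hζ'] at this
        rwa [Real.norm_of_nonneg (by positivity)] at this
      have h14 : 0 ≤ ‖b ζ‖ ^ 2 := by positivity
      linarith
    rw [h2] at h4
    linarith
  have := pow_compare (m := 2 * m) (k := k) (c := c₀) (C := C) hc₀pos (by
    filter_upwards [Ioo_mem_nhdsGT hδ] with ρ hρ
    exact key ρ hρ.1 hρ.2)
  exact_mod_cast this

end Pool.Agent.Helper417.Sq
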