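import Pool.Agent.Helper417.Sq.Limit
import Pool.Agent.Helper417.Sq.FiniteType

namespace Pool.Agent.Helper417.Sq

open Set Filter Topology Metric Asymptotics
open scoped ENNReal ContDiff

/-- defining function of the egg -/
noncomputable def rho (v : Cn 2) : ℝ := ‖v 0‖ ^ 2 + ‖v 1‖ ^ 4 - 1

theorem egg_eq : egg = {v | rho v < 0} := by
  ext v
  simp only [egg, rho, mem_ofPred_eq]
  constructor <;> intro h <;> linarith

theorem contDiff_rho : ContDiff ℝ ∞ rho := by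
  have h0 : ContDiff ℝ ∞ (fun v : Cn 2 => v 0) := by fun_prop
  have h1 : ContDiff ℝ ∞ (fun v : Cn 2 => v 1) := by fun_prop
  have h2 : ContDiff ℝ ∞ (fun v : Cn 2 => ‖v 0‖ ^ 2) := h0.norm_sq ℝ
  have h3 : ContDiff ℝ ∞ (fun v : Cn 2 => ‖v 1‖ ^ 2) := h1.norm_sq ℝ
  have h4 : ContDiff ℝ ∞ (fun v : Cn 2 => (‖v 1‖ ^ 2) ^ 2) := h3.pow 2
  have h5 : rho = fun v => ‖v 0‖ ^ 2 + (‖v 1‖ ^ 2) ^ 2 - 1 := by
    funext v
    simp only [rho]
    ring
  rw [h5]
  exact (h2.add h4).sub contDiff_const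

theorem convexOn_rho : ConvexOn ℝ univ rho := by
  have h0 : ConvexOn ℝ univ (fun v : Cn 2 => ‖v 0‖) := by
    refine ⟨convex_univ, fun x _ y _ a b ha hb _ => ?_⟩
    simp only [PiLp.add_apply, PiLp.smul_apply]
    calc ‖a • x 0 + b • y 0‖ ≤ ‖a • x 0‖ + ‖b • y 0‖ := norm_add_le _ _
      _ = a • ‖x 0‖ + b • ‖y 0‖ := by
        rw [norm_smul, norm_smul, Real.norm_of_nonneg ha, Real.norm_of_nonneg hb]
        rfl
  have h1 : ConvexOn ℝ univ (fun v : Cn 2 => ‖v 1‖) := by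
    refine ⟨convex_univ, fun x _ y _ a b ha hb _ => ?_⟩
    simp only [PiLp.add_apply, PiLp.smul_apply]
    calc ‖a • x 1 + b • y 1‖ ≤ ‖a • x 1‖ + ‖b • y 1‖ := norm_add_le _ _
      _ = a • ‖x 1‖ + b • ‖y 1‖ := by
        rw [norm_smul, norm_smul, Real.norm_of_nonneg ha, Real.norm_of_nonneg hb]
        rfl
  have h2 := h0.pow (fun _ _ => norm_nonneg _) 2
  have h3 := h1.pow (fun _ _ => norm_nonneg _) 4
  exact (h2.add h3).add_const (-1)

theorem convex_egg : Convex ℝ egg := by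
  rw [egg_eq]
  have := convexOn_rho.convex_lt 0
  simpa using this

theorem isBoundedDomain_egg : IsBoundedDomain egg := by
  refine ⟨isOpen_egg, convex_egg.isConnected ⟨0, ?_⟩, ?_⟩
  · show ‖(0 : Cn 2) 0‖ ^ 2 + ‖(0 : Cn 2) 1‖ ^ 4 < 1
    simp
  · apply (Metric.isBounded_ball (x := (0 : Cn 2)) (r := 2)).subset
    intro v hv
    rw [mem_ball_iff _ _ two_pos]
    have h1 : ‖v 0‖ ^ 2 + ‖v 1‖ ^ 4 < 1 := hv
    have h2 : 0 ≤ (‖v 1‖ ^ 2 - 1) ^ 2 := sq_nonneg _
    have h3 : 0 ≤ ‖v 0‖ ^ 2 := sq_nonneg _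
    nlinarith

/-- along lines `rho` is a polynomial -/
theorem rho_line (q t : Cn 2) (s : ℝ) : rho (q + s • t) =
    (‖q 0‖ ^ 2 + s * (2 * (q 0 * starRingEnd ℂ (t 0)).re) + s ^ 2 * ‖t 0‖ ^ 2) +
    (‖q 1‖ ^ 2 + s * (2 * (q 1 * starRingEnd ℂ (t 1)).re) + s ^ 2 * ‖t 1‖ ^ 2) ^ 2 - 1 := by
  have h : ∀ a b : ℂ, ‖a + s • b‖ ^ 2 =
      ‖a‖ ^ 2 + s * (2 * (a * starRingEnd ℂ b).re) + s ^ 2 * ‖b‖ ^ 2 := by
    intro a b
    simp only [← Complex.normSq_eq_norm_sq, Complex.normSq_apply]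
    simp
    ring
  have h4 : rho (q + s • t) = ‖q 0 + s • t 0‖ ^ 2 + (‖q 1 + s • t 1‖ ^ 2) ^ 2 - 1 := by
    simp only [rho, PiLp.add_apply, PiLp.smul_apply]
    ring
  rw [h4, h, h]

theorem hasDerivAt_line {n : ℕ} {r : Cn n → ℝ} {q t : Cn n} {s : ℝ}
    (h : DifferentiableAt ℝ r (q + s • t)) :
    HasDerivAt (fun s : ℝ => r (q + s • t)) (fderiv ℝ r (q + s • t) t) s := by
  have h1 : HasDerivAt (fun s : ℝ => q + s • t) t s := by
    simpa using ((hasDerivAt_id s).smul_const t).const_add q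
  exact h.hasFDerivAt.comp_hasDerivAt s h1

/-- first and second derivatives along lines -/
theorem line_derivs {n : ℕ} {r : Cn n → ℝ} {U : Set (Cn n)} (hU : IsOpen U)
    (hr : ContDiffOn ℝ ∞ r U) {q : Cn n} (hq : q ∈ U) (t : Cn n) :
    (∀ᶠ s in 𝓝 (0 : ℝ), HasDerivAt (fun s : ℝ => r (q + s • t)) (fderiv ℝ r (q + s • t) t) s) ∧
    deriv (fun s : ℝ => r (q + s • t)) 0 = fderiv ℝ r q t ∧
    deriv (deriv (fun s : ℝ => r (q + s • t))) 0 = fderiv ℝ (fderiv ℝ r) q t t := by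
  have hcont : Continuous (fun s : ℝ => q + s • t) := by fun_prop
  have hev : ∀ᶠ s in 𝓝 (0 : ℝ), q + s • t ∈ U := by
    apply hcont.continuousAt.eventually
    simp only [zero_smul, add_zero]
    exact hU.mem_nhds hq
  have hd : ∀ x ∈ U, DifferentiableAt ℝ r x := fun x hx =>
    (hr.differentiableOn (by norm_num) x hx).differentiableAt (hU.mem_nhds hx)
  have h1 : ∀ᶠ s in 𝓝 (0 : ℝ), HasDerivAt (fun s : ℝ => r (q + s • t))
      (fderiv ℝ r (q + s • t) t) s := by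
    filter_upwards [hev] with s hs
    exact hasDerivAt_line (hd _ hs)
  have h2 : deriv (fun s : ℝ => r (q + s • t)) =ᶠ[𝓝 0] fun s => fderiv ℝ r (q + s • t) t := by
    filter_upwards [h1] with s hs
    exact hs.deriv
  refine ⟨h1, ?_, ?_⟩
  · rw [h2.eq_of_nhds]
    simp
  · rw [h2.deriv_eq]
    have h3 : DifferentiableAt ℝ (fderiv ℝ r) q := by
      have hle : (1 : WithTop ℕ∞) + 1 ≤ ((⊤ : ℕ∞) : WithTop ℕ∞) := by
        rw [one_add_one_eq_two]
        exact WithTop.coe_le_coe.2 (le_top : (2 : ℕ∞) ≤ ⊤)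
      have : ContDiffOn ℝ 1 (fderiv ℝ r) U := hr.fderiv_of_isOpen hU hle
      exact (this.differentiableOn (by norm_num) q hq).differentiableAt (hU.mem_nhds hq)
    have h4 : HasDerivAt (fun s : ℝ => q + s • t) t 0 := by
      simpa using ((hasDerivAt_id (0 : ℝ)).smul_const t).const_add q
    have h5 : HasFDerivAt (fderiv ℝ r) (fderiv ℝ (fderiv ℝ r) q) (q + (0 : ℝ) • t) := by
      simpa using h3.hasFDerivAt
    have h6 : HasDerivAt (fun s : ℝ => fderiv ℝ r (q + s • t)) (fderiv ℝ (fderiv ℝ r) q t) 0 :=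
      h5.comp_hasDerivAt (0 : ℝ) h4
    have h7 := h6.clm_apply (hasDerivAt_const (0 : ℝ) t)
    simpa using h7.deriv

/-- the real Hessian of `rho` is positive semidefinite -/
theorem hess_rho_nonneg (q t : Cn 2) : 0 ≤ fderiv ℝ (fderiv ℝ rho) q t t := by
  obtain ⟨-, -, h⟩ := line_derivs isOpen_univ contDiff_rho.contDiffOn (mem_univ q) t
  rw [← h]
  set A := ‖q 0‖ ^ 2 with hA
  set B := 2 * (q 0 * starRingEnd ℂ (t 0)).re with hB
  set C := ‖t 0‖ ^ 2 with hC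
  set A' := ‖q 1‖ ^ 2 with hA'
  set B' := 2 * (q 1 * starRingEnd ℂ (t 1)).re with hB'
  set C' := ‖t 1‖ ^ 2 with hC'
  have h1 : (fun s : ℝ => rho (q + s • t)) =
      fun s => (A + s * B + s ^ 2 * C) + (A' + s * B' + s ^ 2 * C') ^ 2 - 1 := by
    funext s
    exact rho_line q t s
  have h2 : deriv (fun s : ℝ => rho (q + s • t)) =
      fun s => (B + 2 * s * C) + 2 * (A' + s * B' + s ^ 2 * C') * (B' + 2 * s * C') := by
    rw [h1]
    funext s
    apply HasDerivAt.deriv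
    have e1 : HasDerivAt (fun s : ℝ => A + s * B + s ^ 2 * C) (B + 2 * s * C) s := by
      have := (((hasDerivAt_id s).mul_const B).const_add A).fun_add
        (((hasDerivAt_id s).pow 2).mul_const C)
      simpa using this
    have e2 : HasDerivAt (fun s : ℝ => A' + s * B' + s ^ 2 * C') (B' + 2 * s * C') s := by
      have := (((hasDerivAt_id s).mul_const B').const_add A').fun_add
        (((hasDerivAt_id s).pow 2).mul_const C')
      simpa using this
    have := (e1.add (e2.pow 2)).sub_const 1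
    simpa using this
  have h3 : deriv (deriv (fun s : ℝ => rho (q + s • t))) 0 =
      2 * C + (2 * B' * B' + 2 * A' * (2 * C')) := by
    rw [h2]
    apply HasDerivAt.deriv
    have e1 : HasDerivAt (fun s : ℝ => B + 2 * s * C) (2 * C) 0 := by
      have := (((hasDerivAt_id (0 : ℝ)).const_mul 2).mul_const C).const_add B
      simpa using this
    have e2 : HasDerivAt (fun s : ℝ => A' + s * B' + s ^ 2 * C') B' 0 := by
      have := (((hasDerivAt_id (0 : ℝ)).mul_const B').const_add A').fun_add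
        (((hasDerivAt_id (0 : ℝ)).pow 2).mul_const C')
      simpa using this
    have e3 : HasDerivAt (fun s : ℝ => B' + 2 * s * C') (2 * C') 0 := by
      have := (((hasDerivAt_id (0 : ℝ)).const_mul 2).mul_const C').const_add B'
      simpa using this
    have := e1.fun_add ((e2.const_mul 2).fun_mul e3)
    simpa using this
  rw [h3]
  have p1 : 0 ≤ C := sq_nonneg _
  have p2 : 0 ≤ A' := sq_nonneg _
  have p3 : 0 ≤ C' := sq_nonneg _
  have p4 : 0 ≤ B' * B' := mul_self_nonneg _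
  have p5 : 0 ≤ A' * C' := mul_nonneg p2 p3
  nlinarith

theorem levi_rho_nonneg (q t : Cn 2) : 0 ≤ levi rho q t := by
  unfold levi
  have h1 := hess_rho_nonneg q t
  have h2 := hess_rho_nonneg q (Complex.I • t)
  positivity

theorem rho_scale (q : Cn 2) (s : ℝ) : rho (s • q) = s ^ 2 * ‖q 0‖ ^ 2 + s ^ 4 * ‖q 1‖ ^ 4 - 1 := by
  simp only [rho, PiLp.smul_apply, norm_smul, mul_pow, Real.norm_eq_abs]
  rw [sq_abs, show (4 : ℕ) = 2 * 2 from rfl, pow_mul |s|, sq_abs]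
  ring

theorem fderiv_rho_ne (q : Cn 2) (hq : q ≠ 0) : fderiv ℝ rho q ≠ 0 := by
  obtain ⟨-, h, -⟩ := line_derivs isOpen_univ contDiff_rho.contDiffOn (mem_univ q) q
  intro h0
  rw [h0] at h
  have h1 : (fun s : ℝ => rho (q + s • q)) =
      fun s => (1 + s) ^ 2 * ‖q 0‖ ^ 2 + (1 + s) ^ 4 * ‖q 1‖ ^ 4 - 1 := by
    funext s
    rw [← rho_scale, add_smul, one_smul]
  rw [h1] at h
  have h2 : HasDerivAt (fun s : ℝ => (1 + s) ^ 2 * ‖q 0‖ ^ 2 + (1 + s) ^ 4 * ‖q 1‖ ^ 4 - 1)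
      (2 * ‖q 0‖ ^ 2 + 4 * ‖q 1‖ ^ 4) 0 := by
    have e : HasDerivAt (fun s : ℝ => 1 + s) 1 0 := (hasDerivAt_id (0 : ℝ)).const_add 1
    have := (((e.pow 2).mul_const (‖q 0‖ ^ 2)).add ((e.pow 4).mul_const (‖q 1‖ ^ 4))).sub_const 1
    simpa using this
  rw [h2.deriv] at h
  simp only [zero_apply] at h
  have h3 : 0 ≤ ‖q 0‖ ^ 2 := by positivity
  have h4 : 0 ≤ ‖q 1‖ ^ 4 := by positivity
  have h5 : ‖q 0‖ ^ 2 = 0 := by linarith
  have h6 : ‖q 1‖ ^ 4 = 0 := by linarith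
  have h7 : q 0 = 0 := by simpa using h5
  have h8 : q 1 = 0 := by simpa using h6
  apply hq
  ext i
  fin_cases i
  · exact h7
  · exact h8

theorem mem_frontier_egg (q : Cn 2) (_ : q ≠ 0) : q ∈ frontier egg ↔ rho q = 0 := by
  rw [frontier, isOpen_egg.interior_eq]
  constructor
  · rintro ⟨h1, h2⟩
    have h3 : rho q ≤ 0 := by
      have : closure egg ⊆ {v | rho v ≤ 0} := by
        apply closure_minimal
        · intro v hv
          rw [egg_eq] at hv
          exact (show rho v < 0 from hv).le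
        · exact isClosed_le contDiff_rho.continuous continuous_const
      exact this h1
    have h4 : ¬ rho q < 0 := by
      intro h
      apply h2
      rw [egg_eq]
      exact h
    linarith
  · intro h
    refine ⟨?_, ?_⟩
    · have hcont : Continuous (fun s : ℝ => s • q) := by fun_prop
      have h1 : Tendsto (fun s : ℝ => s • q) (𝓝[<] 1) (𝓝 q) := by
        have := (hcont.tendsto 1).mono_left (nhdsWithin_le_nhds (s := Iio 1))
        simpa using this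
      apply mem_closure_of_tendsto h1
      have h2 : ∀ᶠ s in 𝓝[<] (1 : ℝ), s ∈ Ioo (0 : ℝ) 1 := Ioo_mem_nhdsLT one_pos
      filter_upwards [h2] with s hs
      rw [egg_eq]
      show rho (s • q) < 0
      rw [rho_scale]
      have h3 : ‖q 0‖ ^ 2 + ‖q 1‖ ^ 4 - 1 = 0 := h
      have h4 : 0 ≤ ‖q 0‖ ^ 2 := by positivity
      have h5 : 0 ≤ ‖q 1‖ ^ 4 := by positivity
      have h6 : s ^ 2 < 1 := pow_lt_one₀ hs.1.le hs.2 two_ne_zero
      have h7 : s ^ 4 ≤ s ^ 2 := pow_le_pow_of_le_one hs.1.le hs.2.le (by norm_num)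
      nlinarith
    · intro h1
      rw [egg_eq] at h1
      have : rho q < 0 := h1
      linarith

theorem isDefiningOn_rho : IsDefiningOn egg {q | q ≠ 0} rho where
  isOpen := isOpen_ne
  smooth := contDiff_rho.contDiffOn
  grad_ne := fun q hq => fderiv_rho_ne q hq
  mem_iff := fun q _ => by rw [egg_eq]; rfl
  mem_frontier_iff := fun q hq => mem_frontier_egg q hq

theorem pt_zero : pt 0 = 1 := by simp [pt]
theorem pt_one : pt 1 = 0 := by simp [pt]

theorem pt_ne : pt ≠ 0 := by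
  intro h
  have := congrArg (fun v : Cn 2 => v 0) h
  simp [pt] at this

theorem pt_mem_frontier : pt ∈ frontier egg := by
  rw [mem_frontier_egg _ pt_ne, rho, pt_zero, pt_one]
  simp

/-- finite type (at most 4) at every boundary point -/
theorem dAngeloType_rho_le (q : Cn 2) (hq : rho q = 0) : dAngeloType rho q ≤ 4 := by
  unfold dAngeloType
  apply iSup₂_le
  rintro γ ⟨hγ, hγ0, hγn⟩
  have hd : AnalyticAt ℂ (fun ζ => γ ζ - q) 0 := hγ.sub analyticAt_const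
  have hne : analyticOrderAt (fun ζ => γ ζ - q) 0 ≠ ⊤ := by
    intro h
    rw [analyticOrderAt_eq_top] at h
    apply hγn
    filter_upwards [h] with ζ hζ
    exact sub_eq_zero.1 hζ
  obtain ⟨m, hm⟩ : ∃ m : ℕ, analyticOrderAt (fun ζ => γ ζ - q) 0 = m :=
    ⟨_, (ENat.natCast_toNat hne).symm⟩
  obtain ⟨g, hg, hg0, hgm⟩ := (hd.analyticOrderAt_eq_natCast).1 hm
  -- `μ ≥ m`
  have hmu : (m : ℝ≥0∞) ≤ vanOrder (fun ζ => γ ζ - q) := by
    unfold vanOrder
    apply le_iSup₂ (f := fun (k : ℕ) (_ : (fun ζ => γ ζ - q) =O[𝓝 0] fun ζ : ℂ => ‖ζ‖ ^ k) =>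
      (k : ℝ≥0∞)) m
    have h1 : g =O[𝓝 0] (fun _ => (1 : ℝ)) := hg.continuousAt.isBigO_one ℝ
    obtain ⟨C, hC⟩ := h1.bound
    apply IsBigO.of_bound C
    filter_upwards [hC, hgm] with ζ h2 h3
    rw [h3]
    simp only [sub_zero, norm_smul, norm_pow, norm_norm]
    rw [norm_one, mul_one] at h2
    rw [mul_comm]
    exact mul_le_mul_of_nonneg_right h2 (by positivity)
  -- components
  set a : ℂ → ℂ := fun ζ => γ ζ 0 - q 0 with ha
  set b : ℂ → ℂ := fun ζ => γ ζ 1 - q 1 with hb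
  set h : ℂ → ℂ := fun ζ => b ζ * (2 * q 1 + b ζ) with hh
  have hproj : ∀ i : Fin 2, AnalyticAt ℂ (fun ζ => γ ζ i) 0 := by
    intro i
    exact ((EuclideanSpace.proj (𝕜 := ℂ) i).analyticAt _).comp hγ
  have hga : ∀ i : Fin 2, AnalyticAt ℂ (fun ζ => g ζ i) 0 := by
    intro i
    exact ((EuclideanSpace.proj (𝕜 := ℂ) i).analyticAt _).comp hg
  have haan : AnalyticAt ℂ a 0 := (hproj 0).sub analyticAt_const
  have hban : AnalyticAt ℂ b 0 := (hproj 1).sub analyticAt_const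
  have hhan : AnalyticAt ℂ h 0 := hban.mul (analyticAt_const.add hban)
  have ha0 : a 0 = 0 := by simp [ha, hγ0]
  have hb0 : b 0 = 0 := by simp [hb, hγ0]
  have hh0 : h 0 = 0 := by simp [hh, hb0]
  have hrho : ∀ ζ, rho (γ ζ) =
      ‖q 0 + a ζ‖ ^ 2 + ‖(q 1) ^ 2 + h ζ‖ ^ 2 - ‖q 0‖ ^ 2 - ‖(q 1) ^ 2‖ ^ 2 := by
    intro ζ
    have e1 : q 0 + a ζ = γ ζ 0 := by simp [ha]
    have e2 : (q 1) ^ 2 + h ζ = (γ ζ 1) ^ 2 := by simp only [hh, hb]; ring
    rw [e1, e2, norm_pow, norm_pow]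
    have hq' : ‖q 0‖ ^ 2 + ‖q 1‖ ^ 4 - 1 = 0 := hq
    simp only [rho]
    nlinarith [hq']
  -- order of `h`
  have hordh : analyticOrderAt h 0 ≤ 2 * analyticOrderAt b 0 := by
    have h1 : AnalyticAt ℂ (fun ζ => 2 * q 1 + b ζ) 0 := analyticAt_const.add hban
    have h2 : analyticOrderAt h 0 = analyticOrderAt b 0 + analyticOrderAt
        (fun ζ => 2 * q 1 + b ζ) 0 := analyticOrderAt_mul hban h1
    rw [h2]
    by_cases hq1 : q 1 = 0
    · have : (fun ζ => 2 * q 1 + b ζ) = b := by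
        funext ζ
        rw [hq1]; simp
      rw [this, two_mul]
    · have h3 : analyticOrderAt (fun ζ => 2 * q 1 + b ζ) 0 = 0 := by
        rw [h1.analyticOrderAt_eq_zero]
        simp [hb0, hq1]
      rw [h3, add_zero, two_mul]
      exact le_self_add
  have hai : ∀ᶠ ζ in 𝓝 (0 : ℂ), a ζ = (ζ - 0) ^ m • g ζ 0 := by
    filter_upwards [hgm] with ζ hζ
    have := congrArg (fun v : Cn 2 => v 0) hζ
    simpa [ha] using this
  have hbi : ∀ᶠ ζ in 𝓝 (0 : ℂ), b ζ = (ζ - 0) ^ m • g ζ 1 := by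
    filter_upwards [hgm] with ζ hζ
    have := congrArg (fun v : Cn 2 => v 1) hζ
    simpa [hb] using this
  -- main bound
  have hk : ∀ k : ℕ, (fun ζ => rho (γ ζ)) =O[𝓝 0] (fun ζ : ℂ => ‖ζ‖ ^ k) → k ≤ 4 * m := by
    intro k hk
    have hk1 : (k : ℕ∞) ≤ 2 * analyticOrderAt a 0 := by
      apply order_bound haan hhan ha0 hh0 (q 0) ((q 1) ^ 2) k
      have : (fun ζ => ‖q 0 + a ζ‖ ^ 2 + ‖(q 1) ^ 2 + h ζ‖ ^ 2 - ‖q 0‖ ^ 2 - ‖(q 1) ^ 2‖ ^ 2) =
          fun ζ => rho (γ ζ) := by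
        funext ζ; exact (hrho ζ).symm
      rw [this]
      exact hk
    have hk2 : (k : ℕ∞) ≤ 2 * analyticOrderAt h 0 := by
      apply order_bound hhan haan hh0 ha0 ((q 1) ^ 2) (q 0) k
      have : (fun ζ => ‖(q 1) ^ 2 + h ζ‖ ^ 2 + ‖q 0 + a ζ‖ ^ 2 - ‖(q 1) ^ 2‖ ^ 2 - ‖q 0‖ ^ 2) =
          fun ζ => rho (γ ζ) := by
        funext ζ; rw [hrho ζ]; ring
      rw [this]
      exact hk
    have hg01 : g 0 0 ≠ 0 ∨ g 0 1 ≠ 0 := by
      by_contra hcon
      push Not at hcon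
      apply hg0
      ext i
      fin_cases i
      · exact hcon.1
      · exact hcon.2
    rcases hg01 with h0 | h1
    · have : analyticOrderAt a 0 = m := (haan.analyticOrderAt_eq_natCast).2 ⟨_, hga 0, h0, hai⟩
      rw [this] at hk1
      have : k ≤ 2 * m := by exact_mod_cast hk1
      omega
    · have : analyticOrderAt b 0 = m := (hban.analyticOrderAt_eq_natCast).2 ⟨_, hga 1, h1, hbi⟩
      rw [this] at hordh
      have h2 : (k : ℕ∞) ≤ 2 * (2 * m) := hk2.trans (mul_le_mul_right hordh 2)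
      have : k ≤ 2 * (2 * m) := by exact_mod_cast h2
      omega
  have hfin : vanOrder (fun ζ => rho (γ ζ)) ≤ 4 * vanOrder (fun ζ => γ ζ - q) := by
    have h1 : vanOrder (fun ζ => rho (γ ζ)) ≤ 4 * (m : ℝ≥0∞) := by
      unfold vanOrder
      apply iSup₂_le
      intro k hk'
      have := hk k hk'
      exact_mod_cast this
    exact h1.trans (mul_le_mul_right hmu 4)
  exact ENNReal.div_le_of_le_mul hfin

end Pool.Agent.Helper417.Sq
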