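import Pool.Agent.Helper417.Sq.Embed

namespace Pool.Agent.Helper417.Sq

open Set Filter Topology Metric Asymptotics
open scoped ENNReal ContDiff

/-- automorphisms of the ball, moving `(0,t)` to `0` -/
noncomputable def psi (t : ℝ) (v : Cn 2) : Cn 2 :=
  !₂[((Real.sqrt (1 - t ^ 2) : ℝ) : ℂ) * v 0 / (1 - t * v 1), (v 1 - t) / (1 - t * v 1)]

theorem psi_zero (t : ℝ) (v : Cn 2) :
    psi t v 0 = ((Real.sqrt (1 - t ^ 2) : ℝ) : ℂ) * v 0 / (1 - t * v 1) := by simp [psi]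

theorem psi_one (t : ℝ) (v : Cn 2) : psi t v 1 = (v 1 - t) / (1 - t * v 1) := by simp [psi]

theorem norm_one_lt_of_mem_ball {v : Cn 2} (hv : v ∈ ball (0 : Cn 2) 1) : ‖v 1‖ < 1 := by
  have h1 := (mem_ball_iff v 1 one_pos).1 hv
  nlinarith [norm_nonneg (v 1), sq_nonneg ‖v 0‖]

theorem psi_identity {t : ℝ} (ht : |t| < 1) {v : Cn 2} (hv : ‖v 1‖ < 1) :
    (1 - (‖psi t v 0‖ ^ 2 + ‖psi t v 1‖ ^ 2)) * ‖1 - t * v 1‖ ^ 2 =
      (1 - t ^ 2) * (1 - (‖v 0‖ ^ 2 + ‖v 1‖ ^ 2)) ∧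
    (1 - ‖psi t v 1‖ ^ 2) * ‖1 - t * v 1‖ ^ 2 = (1 - t ^ 2) * (1 - ‖v 1‖ ^ 2) := by
  have hre := re_pos_of ht hv
  have hne : (1 - t * v 1 : ℂ) ≠ 0 := by
    intro h
    rw [h] at hre
    simp at hre
  have hx2 : 0 ≤ 1 - t ^ 2 := by
    have := (sq_lt_one_iff_abs_lt_one t).2 ht
    linarith
  have hn : 0 < ‖1 - t * v 1‖ := norm_pos_iff.2 hne
  have h4 : ‖psi t v 0‖ ^ 2 * ‖1 - t * v 1‖ ^ 2 = (1 - t ^ 2) * ‖v 0‖ ^ 2 := by
    rw [psi_zero, norm_div, norm_mul, div_pow, mul_pow, div_mul_cancel₀ _ (by positivity),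
      Complex.norm_real, Real.norm_of_nonneg (Real.sqrt_nonneg _), Real.sq_sqrt hx2]
  have h5 : ‖psi t v 1‖ ^ 2 * ‖1 - t * v 1‖ ^ 2 = ‖v 1 - t‖ ^ 2 := by
    rw [psi_one, norm_div, div_pow, div_mul_cancel₀ _ (by positivity)]
  have h6 : ‖1 - t * v 1‖ ^ 2 - ‖v 1 - t‖ ^ 2 = (1 - t ^ 2) * (1 - ‖v 1‖ ^ 2) := by
    simp only [← Complex.normSq_eq_norm_sq, Complex.normSq_apply]
    simp
    ring
  constructor
  · calc (1 - (‖psi t v 0‖ ^ 2 + ‖psi t v 1‖ ^ 2)) * ‖1 - t * v 1‖ ^ 2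
      = (‖1 - t * v 1‖ ^ 2 - ‖psi t v 1‖ ^ 2 * ‖1 - t * v 1‖ ^ 2) -
        ‖psi t v 0‖ ^ 2 * ‖1 - t * v 1‖ ^ 2 := by ring
    _ = (1 - t ^ 2) * (1 - (‖v 0‖ ^ 2 + ‖v 1‖ ^ 2)) := by
        rw [h4, h5, h6]; ring
  · calc (1 - ‖psi t v 1‖ ^ 2) * ‖1 - t * v 1‖ ^ 2
      = ‖1 - t * v 1‖ ^ 2 - ‖psi t v 1‖ ^ 2 * ‖1 - t * v 1‖ ^ 2 := by ring
    _ = (1 - t ^ 2) * (1 - ‖v 1‖ ^ 2) := by rw [h5, h6]

theorem psi_mem {t : ℝ} (ht : |t| < 1) {v : Cn 2} (hv : v ∈ ball (0 : Cn 2) 1) :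
    psi t v ∈ ball (0 : Cn 2) 1 := by
  have h0 := norm_one_lt_of_mem_ball hv
  have h1 := (psi_identity ht h0).1
  have hre := re_pos_of ht h0
  have hne : (1 - t * v 1 : ℂ) ≠ 0 := by
    intro h
    rw [h] at hre
    simp at hre
  have hn : 0 < ‖1 - t * v 1‖ ^ 2 := by
    have := norm_pos_iff.2 hne
    positivity
  have hx2 : 0 < 1 - t ^ 2 := by
    have := (sq_lt_one_iff_abs_lt_one t).2 ht
    linarith
  rw [mem_ball_iff _ _ one_pos] at hv ⊢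
  have h3 : 0 < (1 - t ^ 2) * (1 - (‖v 0‖ ^ 2 + ‖v 1‖ ^ 2)) := by
    apply mul_pos hx2
    linarith
  rw [← h1] at h3
  have h4 := pos_of_mul_pos_left h3 hn.le
  linarith

theorem psi_inverse {t : ℝ} (ht : |t| < 1) {v : Cn 2} (hv : v ∈ ball (0 : Cn 2) 1) :
    psi (-t) (psi t v) = v := by
  have h0 := norm_one_lt_of_mem_ball hv
  have hre := re_pos_of ht h0
  have hne : (1 - t * v 1 : ℂ) ≠ 0 := by
    intro h
    rw [h] at hre
    simp at hre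
  have hx2 : 0 < 1 - t ^ 2 := by
    have := (sq_lt_one_iff_abs_lt_one t).2 ht
    linarith
  have hx2c : (1 - (t : ℂ) ^ 2) ≠ 0 := by
    have : ((1 - t ^ 2 : ℝ) : ℂ) ≠ 0 := by exact_mod_cast hx2.ne'
    simpa using this
  have h3 : (1 - ((-t : ℝ) : ℂ) * (psi t v 1)) = (1 - t ^ 2) / (1 - t * v 1) := by
    rw [psi_one]
    push_cast
    field_simp
    ring
  set q : ℝ := Real.sqrt (1 - t ^ 2) with hq
  have hqq : (q : ℂ) * q = 1 - t ^ 2 := by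
    have : q * q = 1 - t ^ 2 := Real.mul_self_sqrt hx2.le
    exact_mod_cast this
  have e1 : psi (-t) (psi t v) 1 = v 1 := by
    rw [psi_one, h3, psi_one]
    have h7 : ((v 1 - t) / (1 - t * v 1) - ((-t : ℝ) : ℂ)) =
        v 1 * ((1 - t ^ 2) / (1 - t * v 1)) := by
      push_cast
      exact aux_id _ _ hne
    rw [h7, mul_div_cancel_right₀]
    exact div_ne_zero hx2c hne
  have e0 : psi (-t) (psi t v) 0 = v 0 := by
    rw [psi_zero, h3, psi_zero]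
    have : Real.sqrt (1 - (-t) ^ 2) = q := by rw [hq]; ring_nf
    rw [this, ← hq]
    have h6 : (q : ℂ) * ((q : ℂ) * v 0 / (1 - t * v 1)) = ((q : ℂ) * q) * v 0 / (1 - t * v 1) := by
      ring
    rw [h6, hqq, mul_comm (1 - (t : ℂ) ^ 2) (v 0), mul_div_assoc, mul_div_cancel_right₀]
    exact div_ne_zero hx2c hne
  ext i
  fin_cases i
  · exact e0
  · exact e1

theorem psi_differentiableOn {t : ℝ} (ht : |t| < 1) :
    DifferentiableOn ℂ (psi t) (ball (0 : Cn 2) 1) := by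
  intro v hv
  apply DifferentiableAt.differentiableWithinAt
  have h0 := norm_one_lt_of_mem_ball hv
  have hre := re_pos_of ht h0
  have hne : (1 - t * v 1 : ℂ) ≠ 0 := by
    intro h
    rw [h] at hre
    simp at hre
  have hd0 : DifferentiableAt ℂ (fun v : Cn 2 => v 0) v := by fun_prop
  have hd1 : DifferentiableAt ℂ (fun v : Cn 2 => v 1) v := by fun_prop
  have hl : DifferentiableAt ℂ (fun v : Cn 2 => (1 - t * v 1 : ℂ)) v := by fun_prop
  rw [differentiableAt_euclidean]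
  intro i
  fin_cases i
  · show DifferentiableAt ℂ (fun v => psi t v 0) v
    simp only [psi_zero, div_eq_mul_inv]
    exact (hd0.const_mul _).fun_mul (hl.fun_inv hne)
  · show DifferentiableAt ℂ (fun v => psi t v 1) v
    simp only [psi_one, div_eq_mul_inv]
    exact (hd1.sub_const _).fun_mul (hl.fun_inv hne)

theorem psi_isHolEmbedding {t : ℝ} (ht : |t| < 1) : IsHolEmbedding (ball 0 1) (psi t) :=
  isHolEmbedding_of_inverse isOpen_ball isOpen_ball (psi_differentiableOn ht)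
    (psi_differentiableOn (t := -t) (by rwa [abs_neg])) (fun _ hv => psi_mem ht hv)
    (fun _ hv => psi_inverse ht hv)

/-- the linear map `(z, w) ↦ (c z, w)` -/
noncomputable def lin (c : ℝ) (v : Cn 2) : Cn 2 := !₂[(c : ℂ) * v 0, v 1]

theorem lin_zero (c : ℝ) (v : Cn 2) : lin c v 0 = c * v 0 := by simp [lin]
theorem lin_one (c : ℝ) (v : Cn 2) : lin c v 1 = v 1 := by simp [lin]

theorem lin_differentiable (c : ℝ) : Differentiable ℂ (lin c) := by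
  intro v
  rw [differentiableAt_euclidean]
  intro i
  fin_cases i
  · show DifferentiableAt ℂ (fun v => lin c v 0) v
    simp only [lin_zero]
    fun_prop
  · show DifferentiableAt ℂ (fun v => lin c v 1) v
    simp only [lin_one]
    fun_prop

theorem lin_inverse {c : ℝ} (hc : c ≠ 0) (v : Cn 2) : lin c⁻¹ (lin c v) = v := by
  have hc' : (c : ℂ) ≠ 0 := by exact_mod_cast hc
  ext i
  fin_cases i
  · show lin c⁻¹ (lin c v) 0 = v 0
    rw [lin_zero, lin_zero]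
    push_cast
    field_simp
  · show lin c⁻¹ (lin c v) 1 = v 1
    rw [lin_one, lin_one]

theorem lin_mapsTo : MapsTo (lin (Real.sqrt 2)⁻¹) egg (ball 0 1) := by
  intro v hv
  rw [mem_ball_iff _ _ one_pos, lin_zero, lin_one, norm_mul, mul_pow, Complex.norm_real,
    Real.norm_of_nonneg (by positivity), inv_pow, Real.sq_sqrt (by norm_num)]
  have hv : ‖v 0‖ ^ 2 + ‖v 1‖ ^ 4 < 1 := hv
  have h1 : 0 ≤ (‖v 1‖ ^ 2 - 1) ^ 2 := sq_nonneg _
  nlinarith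

theorem lin_isHolEmbedding : IsHolEmbedding egg (lin (Real.sqrt 2)⁻¹) := by
  have h2 : (Real.sqrt 2)⁻¹ ≠ 0 := by positivity
  exact isHolEmbedding_of_inverse isOpen_egg isOpen_univ (lin_differentiable _).differentiableOn
    (lin_differentiable ((Real.sqrt 2)⁻¹)⁻¹).differentiableOn (mapsTo_univ _ _)
    (fun v _ => lin_inverse h2 v)

/-- The embedding of the egg used to estimate the squeezing function. -/
noncomputable def emb (x t : ℝ) : Cn 2 → Cn 2 := psi t ∘ (lin (Real.sqrt 2)⁻¹ ∘ autE x)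

theorem emb_isHolEmbedding {x t : ℝ} (hx : |x| < 1) (ht : |t| < 1) :
    IsHolEmbedding egg (emb x t) := by
  apply IsHolEmbedding.comp isOpen_egg isOpen_ball _ (psi_isHolEmbedding ht)
  · exact lin_mapsTo.comp (fun v hv => autE_mem hx hv)
  · exact IsHolEmbedding.comp isOpen_egg isOpen_egg (autE_isHolEmbedding hx) lin_isHolEmbedding
      (fun v hv => autE_mem hx hv)

theorem emb_mapsTo {x t : ℝ} (hx : |x| < 1) (ht : |t| < 1) :
    MapsTo (emb x t) egg (ball 0 1) :=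
  (fun _ hv => psi_mem ht (lin_mapsTo (autE_mem hx hv)))

/-- the base point -/
noncomputable def basePt (x t : ℝ) : Cn 2 :=
  !₂[(x : ℂ), ((t * Real.sqrt (Real.sqrt (1 - x ^ 2)) : ℝ) : ℂ)]

theorem basePt_zero (x t : ℝ) : basePt x t 0 = x := by simp [basePt]
theorem basePt_one (x t : ℝ) : basePt x t 1 = ((t * Real.sqrt (Real.sqrt (1 - x ^ 2)) : ℝ) : ℂ) := by
  simp [basePt]

theorem basePt_mem {x t : ℝ} (hx : |x| < 1) (ht : |t| < 1) : basePt x t ∈ egg := by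
  show ‖basePt x t 0‖ ^ 2 + ‖basePt x t 1‖ ^ 4 < 1
  have hx2 : 0 < 1 - x ^ 2 := by
    have := (sq_lt_one_iff_abs_lt_one x).2 hx
    linarith
  have ht2 : t ^ 2 < 1 := (sq_lt_one_iff_abs_lt_one t).2 ht
  rw [basePt_zero, basePt_one, Complex.norm_real, Complex.norm_real, Real.norm_eq_abs,
    Real.norm_eq_abs, sq_abs, show (4 : ℕ) = 2 * 2 from rfl, pow_mul, sq_abs, mul_pow, mul_pow,
    Real.sq_sqrt (Real.sqrt_nonneg _), Real.sq_sqrt hx2.le]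
  have h4 : (t ^ 2) ^ 2 < 1 := by nlinarith [sq_nonneg t]
  nlinarith

theorem emb_basePt {x t : ℝ} (hx : |x| < 1) : emb x t (basePt x t) = 0 := by
  have hx2 : 0 < 1 - x ^ 2 := by
    have := (sq_lt_one_iff_abs_lt_one x).2 hx
    linarith
  have h0 : autE x (basePt x t) 0 = 0 := by
    rw [autE_zero, basePt_zero]
    simp
  have hq : (Real.sqrt (Real.sqrt (1 - x ^ 2))) * (Real.sqrt (Real.sqrt (1 - x ^ 2))) =
      Real.sqrt (1 - x ^ 2) := Real.mul_self_sqrt (Real.sqrt_nonneg _)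
  have hqpos : 0 < Real.sqrt (1 - x ^ 2) := Real.sqrt_pos.2 hx2
  have h1 : autE x (basePt x t) 1 = t := by
    rw [autE_one, basePt_zero, basePt_one]
    have hre : 0 < ((1 : ℂ) - x * x).re := by
      have : ((1 : ℂ) - x * x) = ((1 - x ^ 2 : ℝ) : ℂ) := by push_cast; ring
      rw [this, Complex.ofReal_re]
      exact hx2
    obtain ⟨h1, h2⟩ := sqrt_facts hre
    have h3 : ((1 : ℂ) - x * x) ^ (2⁻¹ : ℂ) = ((Real.sqrt (1 - x ^ 2) : ℝ) : ℂ) := by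
      apply sqrt_unique _ h2
      · rw [Complex.ofReal_re]; exact hqpos
      · rw [h1]
        have := Real.mul_self_sqrt hx2.le
        have h4 : (((Real.sqrt (1 - x ^ 2) * Real.sqrt (1 - x ^ 2) : ℝ)) : ℂ) =
          ((1 - x ^ 2 : ℝ) : ℂ) := by rw [this]
        push_cast at h4
        rw [h4]; ring
    rw [h3, ← Complex.ofReal_mul, mul_assoc, hq, Complex.ofReal_mul, mul_div_assoc, div_self,
      mul_one]
    exact Complex.ofReal_ne_zero.2 hqpos.ne'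
  show psi t (lin (Real.sqrt 2)⁻¹ (autE x (basePt x t))) = 0
  ext i
  fin_cases i
  · show psi t (lin (Real.sqrt 2)⁻¹ (autE x (basePt x t))) 0 = 0
    rw [psi_zero, lin_zero, h0]
    simp
  · show psi t (lin (Real.sqrt 2)⁻¹ (autE x (basePt x t))) 1 = 0
    rw [psi_one, lin_one, h1]
    simp

theorem ball_subset_image {x t r : ℝ} (hx : |x| < 1) (ht0 : 0 ≤ t) (ht : t < 1) (hr0 : 0 < r)
    (hr : r < 1) (htr : 1 - t ^ 2 ≤ 2 * (1 - r ^ 2) * (1 - r) ^ 2) :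
    ball 0 r ⊆ emb x t '' egg := by
  intro v hv
  have htabs : |t| < 1 := by rwa [abs_of_nonneg ht0]
  have htabs' : |(-t)| < 1 := by rwa [abs_neg]
  have hv1 : v ∈ ball (0 : Cn 2) 1 := ball_subset_ball hr.le hv
  have hn1 := norm_one_lt_of_mem_ball hv1
  rw [mem_ball_iff _ _ hr0] at hv
  set u : Cn 2 := psi (-t) v with hu
  have hub : u ∈ ball (0 : Cn 2) 1 := psi_mem htabs' hv1
  have hub' := (mem_ball_iff _ _ one_pos).1 hub
  obtain ⟨I1, I2⟩ := psi_identity htabs' hn1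
  rw [← hu] at I1 I2
  set N : ℝ := ‖1 - ((-t : ℝ) : ℂ) * v 1‖ with hN
  have hNlow : 1 - r ≤ N := by
    have h1 : ‖((-t : ℝ) : ℂ) * v 1‖ ≤ r := by
      rw [norm_mul, Complex.norm_real, Real.norm_eq_abs, abs_neg, abs_of_nonneg ht0]
      have h2 : ‖v 1‖ < r := by
        nlinarith [norm_nonneg (v 1), sq_nonneg ‖v 0‖]
      nlinarith [norm_nonneg (v 1)]
    have h2 := norm_sub_norm_le (1 : ℂ) (((-t : ℝ) : ℂ) * v 1)
    rw [norm_one] at h2
    linarith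
  have hNpos : 0 < N := by linarith
  have ht2 : 0 < 1 - t ^ 2 := by
    have := pow_lt_one₀ ht0 ht two_ne_zero
    linarith
  -- `2 (1 - |u|²) > (1 - |u 1|²)²`
  have hkey : (1 - ‖u 1‖ ^ 2) ^ 2 < 2 * (1 - (‖u 0‖ ^ 2 + ‖u 1‖ ^ 2)) := by
    have hN2 : 0 < N ^ 2 := by positivity
    have hN4 : 0 < N ^ 4 := by positivity
    have I1' : (1 - (‖u 0‖ ^ 2 + ‖u 1‖ ^ 2)) * N ^ 4 =
        (1 - t ^ 2) * ((1 - (‖v 0‖ ^ 2 + ‖v 1‖ ^ 2)) * N ^ 2) := by
      calc (1 - (‖u 0‖ ^ 2 + ‖u 1‖ ^ 2)) * N ^ 4 =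
          ((1 - (‖u 0‖ ^ 2 + ‖u 1‖ ^ 2)) * N ^ 2) * N ^ 2 := by ring
        _ = _ := by rw [I1]; ring
    have I2' : (1 - ‖u 1‖ ^ 2) ^ 2 * N ^ 4 = (1 - t ^ 2) * ((1 - t ^ 2) * (1 - ‖v 1‖ ^ 2) ^ 2) := by
      calc (1 - ‖u 1‖ ^ 2) ^ 2 * N ^ 4 = ((1 - ‖u 1‖ ^ 2) * N ^ 2) ^ 2 := by ring
        _ = _ := by rw [I2]; ring
    have h5 : (1 - t ^ 2) * (1 - ‖v 1‖ ^ 2) ^ 2 < 2 * ((1 - (‖v 0‖ ^ 2 + ‖v 1‖ ^ 2)) * N ^ 2) := by
      have h6 : (1 - ‖v 1‖ ^ 2) ^ 2 ≤ 1 := by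
        have h7 : 0 ≤ 1 - ‖v 1‖ ^ 2 := by
          have := pow_le_one₀ (n := 2) (norm_nonneg (v 1)) hn1.le
          linarith
        have h8 : 1 - ‖v 1‖ ^ 2 ≤ 1 := by
          have := sq_nonneg ‖v 1‖
          linarith
        exact pow_le_one₀ h7 h8
      have h7 : (1 - r) ^ 2 ≤ N ^ 2 := pow_le_pow_left₀ (by linarith) hNlow 2
      have h8 : (1 - t ^ 2) * (1 - ‖v 1‖ ^ 2) ^ 2 ≤ 1 - t ^ 2 := by
        calc (1 - t ^ 2) * (1 - ‖v 1‖ ^ 2) ^ 2 ≤ (1 - t ^ 2) * 1 :=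
              mul_le_mul_of_nonneg_left h6 ht2.le
          _ = 1 - t ^ 2 := mul_one _
      have h9 : 0 < (1 - r) ^ 2 := by
        have : 0 < 1 - r := by linarith
        positivity
      have h10 : 2 * (1 - r ^ 2) * (1 - r) ^ 2 < 2 * ((1 - (‖v 0‖ ^ 2 + ‖v 1‖ ^ 2)) * N ^ 2) := by
        have h11 : 1 - r ^ 2 < 1 - (‖v 0‖ ^ 2 + ‖v 1‖ ^ 2) := by linarith
        have h13 : (1 - r ^ 2) * (1 - r) ^ 2 < (1 - (‖v 0‖ ^ 2 + ‖v 1‖ ^ 2)) * (1 - r) ^ 2 :=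
          mul_lt_mul_of_pos_right h11 h9
        have h14 : (1 - (‖v 0‖ ^ 2 + ‖v 1‖ ^ 2)) * (1 - r) ^ 2 ≤
            (1 - (‖v 0‖ ^ 2 + ‖v 1‖ ^ 2)) * N ^ 2 :=
          mul_le_mul_of_nonneg_left h7 (by
            have : r ^ 2 < 1 := pow_lt_one₀ hr0.le hr two_ne_zero
            linarith)
        linarith
      linarith
    have h6 := mul_lt_mul_of_pos_left h5 ht2
    have h7 : (1 - ‖u 1‖ ^ 2) ^ 2 * N ^ 4 < (2 * (1 - (‖u 0‖ ^ 2 + ‖u 1‖ ^ 2))) * N ^ 4 := by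
      rw [I2']
      calc (1 - t ^ 2) * ((1 - t ^ 2) * (1 - ‖v 1‖ ^ 2) ^ 2) <
          (1 - t ^ 2) * (2 * ((1 - (‖v 0‖ ^ 2 + ‖v 1‖ ^ 2)) * N ^ 2)) := h6
        _ = 2 * ((1 - t ^ 2) * ((1 - (‖v 0‖ ^ 2 + ‖v 1‖ ^ 2)) * N ^ 2)) := by ring
        _ = (2 * (1 - (‖u 0‖ ^ 2 + ‖u 1‖ ^ 2))) * N ^ 4 := by rw [← I1']; ring
    exact lt_of_mul_lt_mul_right h7 hN4.le
  -- the preimage
  set s : Cn 2 := lin (Real.sqrt 2) u with hs
  have hsegg : s ∈ egg := by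
    show ‖s 0‖ ^ 2 + ‖s 1‖ ^ 4 < 1
    rw [hs, lin_zero, lin_one, norm_mul, mul_pow, Complex.norm_real,
      Real.norm_of_nonneg (by positivity), Real.sq_sqrt (by norm_num)]
    nlinarith [hkey]
  have hxm : |(-x)| < 1 := by rwa [abs_neg]
  refine ⟨autE (-x) s, autE_mem hxm hsegg, ?_⟩
  show psi t (lin (Real.sqrt 2)⁻¹ (autE x (autE (-x) s))) = v
  have h1 : autE x (autE (-x) s) = s := by
    have := autE_inverse hxm hsegg
    rwa [neg_neg] at this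
  have h2 : psi t u = v := by
    have := psi_inverse htabs' hv1
    rwa [neg_neg] at this
  rw [h1, hs, lin_inverse (by positivity), h2]

theorem squeezingRadii_le_one {n : ℕ} [NeZero n] {D : Set (Cn n)} {z : Cn n} {r : ℝ}
    (hr : r ∈ squeezingRadii D z) : r ≤ 1 := by
  obtain ⟨hr0, F, -, hFm, -, hb⟩ := hr
  by_contra h
  push Not at h
  let e : Cn n := EuclideanSpace.single 0 1
  have he : ‖e‖ = 1 := by simp [e]
  have h1 : e ∈ ball (0 : Cn n) r := by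
    rw [mem_ball_zero_iff, he]
    exact h
  obtain ⟨w, hw, hwe⟩ := hb h1
  have h2 := hFm hw
  rw [hwe, mem_ball_zero_iff, he] at h2
  exact lt_irrefl _ h2

theorem squeezing_le_one {n : ℕ} [NeZero n] (D : Set (Cn n)) (z : Cn n) : squeezing D z ≤ 1 := by
  by_cases h : (squeezingRadii D z).Nonempty
  · exact csSup_le h (fun r hr => squeezingRadii_le_one hr)
  · rw [squeezing, Set.not_nonempty_iff_eq_empty.1 h, Real.sSup_empty]
    exact zero_le_one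

theorem le_squeezing_basePt {x t r : ℝ} (hx : |x| < 1) (ht0 : 0 ≤ t) (ht : t < 1) (hr0 : 0 < r)
    (hr : r < 1) (htr : 1 - t ^ 2 ≤ 2 * (1 - r ^ 2) * (1 - r) ^ 2) :
    r ≤ squeezing egg (basePt x t) := by
  have htabs : |t| < 1 := by rwa [abs_of_nonneg ht0]
  apply le_csSup ⟨1, fun r hr => squeezingRadii_le_one hr⟩
  exact ⟨hr0, emb x t, emb_isHolEmbedding hx htabs, emb_mapsTo hx htabs, emb_basePt hx,
    ball_subset_image hx ht0 ht hr0 hr htr⟩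

/-- the sequence -/
noncomputable def seqPt (k : ℕ) : Cn 2 :=
  basePt (1 - 1 / ((k : ℝ) + 2)) (1 - (1 / ((k : ℝ) + 2)) ^ 3)

theorem eps_facts (k : ℕ) : 0 < 1 / ((k : ℝ) + 2) ∧ 1 / ((k : ℝ) + 2) ≤ 1 / 2 := by
  have hk : (0 : ℝ) ≤ k := Nat.cast_nonneg k
  constructor
  · positivity
  · apply one_div_le_one_div_of_le <;> linarith

theorem seqPt_mem (k : ℕ) : seqPt k ∈ egg := by
  obtain ⟨h1, h2⟩ := eps_facts k
  set e := 1 / ((k : ℝ) + 2)
  have h3 : 0 < e ^ 3 := by positivity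
  have h4 : e ^ 3 ≤ 1 := by
    calc e ^ 3 ≤ (1 / 2 : ℝ) ^ 3 := pow_le_pow_left₀ h1.le h2 3
      _ ≤ 1 := by norm_num
  apply basePt_mem
  · rw [abs_lt]; constructor <;> linarith
  · rw [abs_lt]; constructor <;> linarith

theorem le_squeezing_seqPt (k : ℕ) : 1 - 1 / ((k : ℝ) + 2) ≤ squeezing egg (seqPt k) := by
  obtain ⟨h1, h2⟩ := eps_facts k
  rw [seqPt]
  set e := 1 / ((k : ℝ) + 2)
  have h3 : 0 < e ^ 3 := by positivity
  have h4 : e ^ 3 ≤ 1 / 8 := by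
    calc e ^ 3 ≤ (1 / 2 : ℝ) ^ 3 := pow_le_pow_left₀ h1.le h2 3
      _ = 1 / 8 := by norm_num
  apply le_squeezing_basePt
  · rw [abs_lt]; constructor <;> linarith
  · linarith
  · linarith
  · linarith
  · linarith
  · -- `1 - (1-e³)² ≤ 2(1-(1-e)²) e²`
    have h5 : 1 - (1 - e ^ 3) ^ 2 = e ^ 3 * (2 - e ^ 3) := by ring
    have h6 : 2 * (1 - (1 - e) ^ 2) * (1 - (1 - e)) ^ 2 = e ^ 3 * (2 * (2 - e)) := by ring
    rw [h5, h6]
    apply mul_le_mul_of_nonneg_left _ h3.le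
    linarith

theorem tendsto_eps : Tendsto (fun k : ℕ => 1 / ((k : ℝ) + 2)) atTop (𝓝 0) := by
  have h1 : Tendsto (fun k : ℕ => (k : ℝ) + 2) atTop atTop :=
    tendsto_atTop_add_const_right _ _ tendsto_natCast_atTop_atTop
  exact (tendsto_const_nhds (x := (1 : ℝ))).div_atTop h1

theorem tendsto_squeezing_seqPt :
    Tendsto (fun k => squeezing egg (seqPt k)) atTop (𝓝 1) := by
  apply tendsto_of_tendsto_of_tendsto_of_le_of_le (g := fun k : ℕ => 1 - 1 / ((k : ℝ) + 2))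
    (h := fun _ => 1) _ tendsto_const_nhds
  · intro k; exact le_squeezing_seqPt k
  · intro k; exact squeezing_le_one _ _
  · have h := (tendsto_const_nhds (x := (1 : ℝ)) (f := (atTop : Filter ℕ))).sub tendsto_eps
    simpa using h

/-- the boundary point `(1,0)` -/
noncomputable def pt : Cn 2 := !₂[1, 0]

theorem tendsto_seqPt : Tendsto seqPt atTop (𝓝 pt) := by
  have hcont : Continuous (fun q : ℝ × ℝ => basePt q.1 q.2) := by
    unfold basePt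
    apply (PiLp.continuous_toLp 2 (fun _ : Fin 2 => ℂ)).comp
    apply continuous_pi
    intro i
    fin_cases i
    · simp only [Fin.zero_eta, Matrix.cons_val_zero]
      fun_prop
    · simp only [Fin.mk_one, Matrix.cons_val_one, Matrix.cons_val_fin_one]
      fun_prop
  have h1 : Tendsto (fun k : ℕ => ((1 - 1 / ((k : ℝ) + 2), 1 - (1 / ((k : ℝ) + 2)) ^ 3) : ℝ × ℝ))
      atTop (𝓝 (1 - 0, 1 - 0 ^ 3)) := by
    apply Tendsto.prodMk_nhds
    · exact tendsto_const_nhds.sub tendsto_eps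
    · exact tendsto_const_nhds.sub (tendsto_eps.pow 3)
  have h2 := (hcont.tendsto (1 - 0, 1 - 0 ^ 3)).comp h1
  have h3 : basePt (1 - 0) (1 - 0 ^ 3) = pt := by
    unfold basePt pt
    simp
  rw [← h3]
  exact h2

end Pool.Agent.Helper417.Sq
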