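import Pool.Agent.Helper417.Sq.Geometry

namespace Pool.Agent.Helper417.Sq

open Set Filter Topology Metric Asymptotics
open scoped ENNReal ContDiff

theorem flat_derivs {g : ℝ → ℝ} (hd : ∀ᶠ s in 𝓝 (0 : ℝ), DifferentiableAt ℝ g s) {K : ℝ}
    (hK : ∀ᶠ s in 𝓝 (0 : ℝ), |g s| ≤ K * s ^ 4) : deriv g 0 = 0 ∧ deriv (deriv g) 0 ≤ 0 := by
  have hg0 : g 0 = 0 := by
    have := hK.self_of_nhds
    simp only [ne_eq, OfNat.ofNat_ne_zero, not_false_eq_true, zero_pow, mul_zero] at this
    exact abs_eq_zero.1 (le_antisymm this (abs_nonneg _))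
  have h1 : HasDerivAt g 0 0 := by
    rw [hasDerivAt_iff_isLittleO]
    have h2 : g =O[𝓝 0] (fun s : ℝ => s ^ 4) := by
      apply IsBigO.of_bound K
      filter_upwards [hK] with s hs
      rw [Real.norm_eq_abs, Real.norm_of_nonneg (by positivity)]
      exact hs
    have h3 : (fun s : ℝ => s ^ 4) =o[𝓝 0] (fun s : ℝ => s) := by
      have := isLittleO_pow_pow (𝕜 := ℝ) (m := 1) (n := 4) (by norm_num)
      simpa using this
    have h4 := h2.trans_isLittleO h3
    simpa [hg0] using h4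
  have hd0 : deriv g 0 = 0 := h1.deriv
  refine ⟨hd0, ?_⟩
  by_contra hcon
  push Not at hcon
  set h := deriv (deriv g) 0 with hh
  have hdd : HasDerivAt (deriv g) h 0 := by
    have : DifferentiableAt ℝ (deriv g) 0 := differentiableAt_of_deriv_ne_zero hcon.ne'
    exact this.hasDerivAt
  set k : ℝ → ℝ := fun s => g s - (h / 4) * s ^ 2 with hk
  have hq : ∀ s : ℝ, HasDerivAt (fun s : ℝ => (h / 4) * s ^ 2) ((h / 2) * s) s := by
    intro s
    have := ((hasDerivAt_id s).pow 2).const_mul (h / 4)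
    have h2 : h / 4 * (↑(2 : ℕ) * id s ^ (2 - 1) * 1) = (h / 2) * s := by
      simp; ring
    rw [h2] at this
    exact this
  have hdk : deriv k =ᶠ[𝓝 0] fun s => deriv g s - (h / 2) * s := by
    filter_upwards [hd] with s hs
    exact (hs.hasDerivAt.fun_sub (hq s)).deriv
  have hdk0 : deriv k 0 = 0 := by
    rw [hdk.eq_of_nhds, hd0]; simp
  have hddk : deriv (deriv k) 0 = h / 2 := by
    rw [hdk.deriv_eq]
    have h5 : HasDerivAt (fun s : ℝ => (h / 2) * s) (h / 2) 0 := by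
      simpa using (hasDerivAt_id (0 : ℝ)).const_mul (h / 2)
    have h6 := (hdd.fun_sub h5).deriv
    rw [h6]; ring
  have hkc : ContinuousAt k 0 := by
    have : ContinuousAt g 0 := hd.self_of_nhds.continuousAt
    exact this.sub (by fun_prop)
  have hmin : IsLocalMin k 0 := by
    apply isLocalMin_of_deriv_deriv_pos _ hdk0 hkc
    rw [hddk]
    linarith
  have h7 : ∀ᶠ s in 𝓝 (0 : ℝ), (h / 4) * s ^ 2 ≤ K * s ^ 4 := by
    filter_upwards [hmin, hK] with s h8 h9
    have h10 : k 0 = 0 := by simp [hk, hg0]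
    rw [h10] at h8
    have h11 : 0 ≤ g s - (h / 4) * s ^ 2 := h8
    have h12 := le_abs_self (g s)
    linarith
  have h8 := pow_compare (c := h / 4) (C := K) (m := 2) (k := 4) (by linarith)
    (h7.filter_mono nhdsWithin_le_nhds)
  omega

/-- for every local defining function at `(1,0)`: directional derivatives along `(0, ω)`,
`|ω| = 1`, vanish to first order and are nonpositive to second order -/
theorem flat_direction {U : Set (Cn 2)} {r : Cn 2 → ℝ} (hp : pt ∈ U) (hr : IsDefiningOn egg U r)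
    (t : Cn 2) (ht0 : t 0 = 0) (ht1 : ‖t 1‖ = 1) :
    fderiv ℝ r pt t = 0 ∧ fderiv ℝ (fderiv ℝ r) pt t t ≤ 0 := by
  obtain ⟨h1, h2, h3⟩ := line_derivs hr.isOpen hr.smooth hp t
  set g : ℝ → ℝ := fun s => r (pt + s • t) with hg
  -- boundary curve
  set c : ℝ → Cn 2 := fun s => !₂[((Real.sqrt (1 - s ^ 4) : ℝ) : ℂ), (s : ℂ) * t 1] with hc
  have hc0 : ∀ s, c s 0 = ((Real.sqrt (1 - s ^ 4) : ℝ) : ℂ) := by intro s; simp [hc]
  have hc1 : ∀ s, c s 1 = (s : ℂ) * t 1 := by intro s; simp [hc]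
  have hccont : Continuous c := by
    rw [hc]
    apply (PiLp.continuous_toLp 2 (fun _ : Fin 2 => ℂ)).comp
    apply continuous_pi
    intro i
    fin_cases i
    · simp only [Fin.zero_eta, Matrix.cons_val_zero]
      fun_prop
    · simp only [Fin.mk_one, Matrix.cons_val_one, Matrix.cons_val_fin_one]
      fun_prop
  have hcat : c 0 = pt := by
    ext i
    fin_cases i
    · show c 0 0 = pt 0
      rw [hc0, pt_zero]; simp
    · show c 0 1 = pt 1
      rw [hc1, pt_one]; simp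
  have hsmall : ∀ᶠ s in 𝓝 (0 : ℝ), s ^ 4 ≤ 1 := by
    have : Continuous (fun s : ℝ => s ^ 4) := by fun_prop
    have h4 : ∀ᶠ s in 𝓝 (0 : ℝ), s ^ 4 < 1 :=
      this.continuousAt.eventually (gt_mem_nhds (by norm_num))
    filter_upwards [h4] with s hs using hs.le
  have hrc : ∀ᶠ s in 𝓝 (0 : ℝ), r (c s) = 0 := by
    have h4 : ∀ᶠ s in 𝓝 (0 : ℝ), c s ∈ U := by
      apply hccont.continuousAt.eventually
      rw [hcat]
      exact hr.isOpen.mem_nhds hp
    have h5 : ∀ᶠ s in 𝓝 (0 : ℝ), c s ≠ 0 := by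
      apply hccont.continuousAt.eventually_ne
      rw [hcat]
      exact pt_ne
    filter_upwards [h4, h5, hsmall] with s h6 h7 h8
    rw [← hr.mem_frontier_iff _ h6, mem_frontier_egg _ h7, rho, hc0, hc1, norm_mul, ht1,
      Complex.norm_real, Complex.norm_real, Real.norm_of_nonneg (Real.sqrt_nonneg _),
      Real.sq_sqrt (by linarith), mul_one, Real.norm_eq_abs]
    rw [show (4 : ℕ) = 2 * 2 from rfl, pow_mul |s|, sq_abs]
    ring
  -- Lipschitz
  have hct : ContDiffAt ℝ 1 r pt := by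
    have : ContDiffAt ℝ ((⊤ : ℕ∞) : WithTop ℕ∞) r pt :=
      (hr.smooth pt hp).contDiffAt (hr.isOpen.mem_nhds hp)
    apply this.of_le
    exact WithTop.coe_le_coe.2 (le_top : (1 : ℕ∞) ≤ ⊤)
  obtain ⟨K, V, hV, hLip⟩ := hct.exists_lipschitzOnWith
  have hgb : ∀ᶠ s in 𝓝 (0 : ℝ), |g s| ≤ K * s ^ 4 := by
    have h4 : ∀ᶠ s in 𝓝 (0 : ℝ), c s ∈ V := by
      apply hccont.continuousAt.eventually
      rw [hcat]
      exact hV
    have h5 : ∀ᶠ s in 𝓝 (0 : ℝ), pt + s • t ∈ V := by
      have hcont : Continuous (fun s : ℝ => pt + s • t) := by fun_prop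
      apply hcont.continuousAt.eventually
      simp only [zero_smul, add_zero]
      exact hV
    filter_upwards [h4, h5, hsmall, hrc] with s h6 h7 h8 h9
    have h10 := hLip.dist_le_mul _ h7 _ h6
    rw [Real.dist_eq, h9, sub_zero] at h10
    have h11 : dist (pt + s • t) (c s) ≤ s ^ 4 := by
      rw [dist_eq_norm]
      have h12 : ‖pt + s • t - c s‖ ^ 2 = (1 - Real.sqrt (1 - s ^ 4)) ^ 2 := by
        rw [EuclideanSpace.norm_sq_eq, Fin.sum_univ_two]
        simp only [PiLp.sub_apply, PiLp.add_apply, PiLp.smul_apply, hc0, hc1, pt_zero, pt_one, ht0]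
        have e1 : (1 : ℂ) + s • (0 : ℂ) - ((Real.sqrt (1 - s ^ 4) : ℝ) : ℂ) =
            ((1 - Real.sqrt (1 - s ^ 4) : ℝ) : ℂ) := by
          push_cast; simp
        have e2 : (0 : ℂ) + s • t 1 - (s : ℂ) * t 1 = 0 := by
          simp
        rw [e1, e2, Complex.norm_real, Real.norm_eq_abs, sq_abs]
        simp
      have h13 : 1 - s ^ 4 ≤ Real.sqrt (1 - s ^ 4) := by
        apply Real.le_sqrt_of_sq_le
        have h14 : 0 ≤ s ^ 4 := by positivity
        nlinarith
      have h14 : Real.sqrt (1 - s ^ 4) ≤ 1 := by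
        rw [Real.sqrt_le_one]
        have h14 : 0 ≤ s ^ 4 := by positivity
        linarith
      have h15 : ‖pt + s • t - c s‖ = 1 - Real.sqrt (1 - s ^ 4) := by
        have := (sq_eq_sq₀ (norm_nonneg _) (by linarith)).1 h12
        exact this
      rw [h15]
      linarith
    calc |g s| ≤ K * dist (pt + s • t) (c s) := h10
      _ ≤ K * s ^ 4 := mul_le_mul_of_nonneg_left h11 K.coe_nonneg
  have hgd : ∀ᶠ s in 𝓝 (0 : ℝ), DifferentiableAt ℝ g s := by
    filter_upwards [h1] with s hs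
    exact hs.differentiableAt
  obtain ⟨h4, h5⟩ := flat_derivs hgd hgb
  exact ⟨by rw [← h2]; exact h4, by rw [← h3]; exact h5⟩

theorem not_stronglyPseudoconvexAt : ¬ StronglyPseudoconvexAt egg pt := by
  rintro ⟨U, r, hp, hr, hpos⟩
  set t : Cn 2 := !₂[0, 1] with ht
  have ht0 : t 0 = 0 := by simp [ht]
  have ht1 : t 1 = 1 := by simp [ht]
  obtain ⟨h1, h2⟩ := flat_direction hp hr t ht0 (by rw [ht1]; simp)
  obtain ⟨h3, h4⟩ := flat_direction hp hr (Complex.I • t) (by simp [ht0]) (by simp [ht1])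
  have h5 := hpos t ⟨h1, h3⟩ (by
    intro h
    rw [h] at ht1
    simp at ht1)
  unfold levi at h5
  linarith

end Pool.Agent.Helper417.Sq
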